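import Mathlib
import Pool.Agent.H4.GS.Mn

set_option autoImplicit false

open Set Filter Topology Metric InnerProductSpace MeasureTheory

namespace Pool.Agent.H4.GS

/-- `ℓ(r)`: the angular measure of the part of `E` on the circle `|z| = r`. -/
noncomputable def angMeas (E : Set ℂ) (r : ℝ) : ℝ :=
  volume.real {θ : ℝ | θ ∈ Ioc (-Real.pi) Real.pi ∧
    (r : ℂ) * Complex.exp ((θ : ℂ) * Complex.I) ∈ E}

/-- The circular symmetrisation `E^*` of `E`: `0 ∈ E^*` iff `0 ∈ E`; a circle `|z| = r` contained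
in `E` is contained in `E^*`; a circle that does not meet `E` does not meet `E^*`; otherwise
`E^* ∩ {|z| = r}` is the arc `|arg z| < ℓ(r) / 2`. -/
def circSymm (E : Set ℂ) : Set ℂ :=
  {z | (z = 0 ∧ (0 : ℂ) ∈ E) ∨
    (z ≠ 0 ∧ sphere (0 : ℂ) ‖z‖ ⊆ E) ∨
    (z ≠ 0 ∧ ¬ sphere (0 : ℂ) ‖z‖ ⊆ E ∧ (sphere (0 : ℂ) ‖z‖ ∩ E).Nonempty ∧
      |Complex.arg z| < angMeas E ‖z‖ / 2)}

/-- `h` is a positive harmonic function on `G \ {a}` such that `h(z) + log |z - a|` extends to a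
harmonic function near `a`. -/
structure HasLogPole (G : Set ℂ) (a : ℂ) (h : ℂ → ℝ) : Prop where
  harm : HarmonicOnNhd h (G \ {a})
  pos : ∀ z ∈ G \ {a}, 0 < h z
  pole : ∃ H : ℂ → ℝ, HarmonicAt H a ∧ ∀ᶠ z in 𝓝[≠] a, h z = H z - Real.log ‖z - a‖

/-- `g` is the Green's function of `G` with pole `a`: the smallest positive harmonic function on
`G \ {a}` with a logarithmic pole at `a`. -/
structure IsGreen (G : Set ℂ) (a : ℂ) (g : ℂ → ℝ) : Prop where
  hasLogPole : HasLogPole G a g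
  minimal : ∀ h : ℂ → ℝ, HasLogPole G a h → ∀ z ∈ G \ {a}, g z ≤ h z

/-- The part `G_lam` of `G` where the Green's function `g` with pole `a` exceeds `lam`
(at the pole the Green's function is `+∞`). -/
def levelSet (G : Set ℂ) (a : ℂ) (g : ℂ → ℝ) (lam : ℝ) : Set ℂ :=
  {z | z ∈ G ∧ (z = a ∨ lam < g z)}

lemma green_unique {G : Set ℂ} {a : ℂ} {g g' : ℂ → ℝ} (h : IsGreen G a g) (h' : IsGreen G a g')
    {z : ℂ} (hz : z ∈ G \ {a}) : g z = g' z :=
  le_antisymm (h.minimal g' h'.hasLogPole z hz) (h'.minimal g h.hasLogPole z hz)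

lemma levelSet_congr {G : Set ℂ} {a : ℂ} {g g' : ℂ → ℝ} (h : IsGreen G a g) (h' : IsGreen G a g')
    (lam : ℝ) : levelSet G a g lam = levelSet G a g' lam := by
  ext z
  simp only [levelSet, mem_ofPred_eq]
  refine and_congr_right fun hz => ?_
  by_cases hza : z = a
  · simp [hza]
  · rw [green_unique h h' ⟨hz, hza⟩]

/-! ### Green's functions of square-root type -/

/-- `‖m - n‖ < ‖n‖ + ‖m‖` unless `-n` is a nonnegative multiple of `m` (for `m ≠ 0`) -/
lemma lt_of_not_ray {n m : ℂ} (hm : m ≠ 0) (h : ∀ t : ℝ, 0 ≤ t → -n ≠ (t : ℂ) * m) :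
    ‖m - n‖ < ‖n‖ + ‖m‖ := by
  by_contra hcon
  push Not at hcon
  have h1 : ‖m + -n‖ = ‖m‖ + ‖-n‖ := by
    apply le_antisymm (norm_add_le _ _)
    rw [norm_neg, ← sub_eq_add_neg]
    linarith
  obtain ⟨t, ht, h2⟩ := (sameRay_iff_norm_add.2 h1).exists_nonneg_left hm
  exact h t ht (by rw [← h2, Complex.real_smul])

lemma real_iff {n m : ℝ} : ‖(m : ℂ) - (n : ℂ)‖ < ‖(n : ℂ)‖ + ‖(m : ℂ)‖ ↔ 0 < n * m := by
  rw [← Complex.ofReal_sub, Complex.norm_real, Complex.norm_real, Complex.norm_real,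
    Real.norm_eq_abs, Real.norm_eq_abs, Real.norm_eq_abs]
  constructor
  · intro h
    by_contra hcon
    push Not at hcon
    rcases le_total 0 n with hn | hn <;> rcases le_total 0 m with hm | hm
    · have h0 : n * m = 0 := le_antisymm hcon (mul_nonneg hn hm)
      rcases mul_eq_zero.1 h0 with h0 | h0 <;> simp [h0] at h
    · rw [abs_of_nonneg hn, abs_of_nonpos hm, abs_of_nonpos (by linarith)] at h
      linarith
    · rw [abs_of_nonpos hn, abs_of_nonneg hm, abs_of_nonneg (by linarith)] at h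
      linarith
    · have h0 : n * m = 0 := le_antisymm hcon (mul_nonneg_of_nonpos_of_nonpos hn hm)
      rcases mul_eq_zero.1 h0 with h0 | h0 <;> simp [h0] at h
  · intro h
    rcases le_total 0 n with hn | hn
    · have hn' : 0 < n := lt_of_le_of_ne hn (by rintro rfl; simp at h)
      have hm' : 0 < m := (pos_iff_pos_of_mul_pos h).1 hn'
      rw [abs_of_pos hn', abs_of_pos hm', abs_lt]
      constructor <;> linarith
    · have hn' : n < 0 := lt_of_le_of_ne hn (by rintro rfl; simp at h)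
      have hm' : m < 0 := (neg_iff_neg_of_mul_pos h).1 hn'
      rw [abs_of_neg hn', abs_of_neg hm', abs_lt]
      constructor <;> linarith

lemma div_mem {n m : ℂ} (h : ‖m - n‖ < ‖n‖ + ‖m‖) : m ≠ 0 ∧ n / m ∈ Complex.slitPlane := by
  have hm : m ≠ 0 := by
    rintro rfl
    simp at h
  refine ⟨hm, ?_⟩
  by_contra hcon
  rw [Complex.mem_slitPlane_iff] at hcon
  push Not at hcon
  have h1 : n / m = (((n / m).re : ℝ) : ℂ) := by
    apply Complex.ext
    · simp
    · simp [hcon.2]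
  have h2 : n = (((n / m).re : ℝ) : ℂ) * m := by
    rw [← h1]; field_simp
  set t := (n / m).re with ht
  have h3 : m - n = ((1 - t : ℝ) : ℂ) * m := by
    rw [h2]; push_cast; ring
  rw [h3, h2, norm_mul, norm_mul, Complex.norm_real, Complex.norm_real, Real.norm_eq_abs,
    Real.norm_eq_abs, abs_of_nonpos hcon.1, abs_of_pos (by linarith)] at h
  linarith

lemma re_sqrt_pos {w : ℂ} (hw : w ∈ Complex.slitPlane) : 0 < (Complex.sqrt w).re := by
  rw [Complex.sqrt, Complex.cpow_inv_two_re]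
  apply Real.sqrt_pos.2
  rcases hw with h | h
  · have := norm_nonneg w; linarith
  · have h1 : |w.re| < ‖w‖ := Complex.abs_re_lt_norm.2 h
    have := neg_abs_le w.re
    linarith

lemma sqrt_sq' (w : ℂ) : (Complex.sqrt w) ^ 2 = w := by
  rw [Complex.sqrt]
  exact Complex.cpow_nat_inv_pow w two_ne_zero

/-- the domain attached to `N, M` inside `U` -/
def dom (U : Set ℂ) (N M : ℂ → ℂ) : Set ℂ := {z | z ∈ U ∧ ‖M z - N z‖ < ‖N z‖ + ‖M z‖}

noncomputable def TT (N M : ℂ → ℂ) (z : ℂ) : ℂ := Complex.sqrt (N z / M z)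

noncomputable def FF (N M E : ℂ → ℂ) (z : ℂ) : ℂ := (1 + TT N M z) ^ 2 * M z / E z

noncomputable def gg (n : ℕ) (N M E : ℂ → ℂ) (a : ℂ) (z : ℂ) : ℝ :=
  (1 / (n : ℝ)) * Real.log ‖FF N M E z‖ - Real.log ‖z - a‖

/-- the data of a Green's function of square-root type -/
structure Data (U : Set ℂ) (N M E : ℂ → ℂ) (a : ℂ) (n : ℕ) : Prop where
  openU : IsOpen U
  npos : 0 < n
  anN : Differentiable ℂ N
  anM : Differentiable ℂ M
  anE : Differentiable ℂ E
  fac : ∀ z, M z - N z = (z - a) ^ n * E z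
  hE : ∀ z ∈ U, E z ≠ 0
  mem : a ∈ dom U N M
  cpt : ∀ c : ℝ, 1 < c → ∃ K : Set ℂ, IsCompact K ∧ K ⊆ U ∧
    ∀ z ∈ U, c * ‖M z - N z‖ ≤ ‖N z‖ + ‖M z‖ → z ∈ K

variable {U : Set ℂ} {N M E : ℂ → ℂ} {a : ℂ} {n : ℕ}

lemma Data.isOpen (h : Data U N M E a n) : IsOpen (dom U N M) := by
  have h1 : IsOpen {z | ‖M z - N z‖ < ‖N z‖ + ‖M z‖} := by
    apply isOpen_lt
    · exact (h.anM.continuous.sub h.anN.continuous).norm
    · exact h.anN.continuous.norm.add h.anM.continuous.norm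
  exact h.openU.inter h1

lemma Data.anF (h : Data U N M E a n) {z : ℂ} (hz : z ∈ dom U N M) :
    AnalyticAt ℂ (FF N M E) z ∧ FF N M E z ≠ 0 := by
  obtain ⟨hM, hs⟩ := div_mem hz.2
  have hE := h.hE z hz.1
  have aN : AnalyticAt ℂ N z := h.anN.analyticAt z
  have aM : AnalyticAt ℂ M z := h.anM.analyticAt z
  have aE : AnalyticAt ℂ E z := h.anE.analyticAt z
  have aQ : AnalyticAt ℂ (fun z => N z / M z) z := aN.div aM hM
  have aS : AnalyticAt ℂ Complex.sqrt (N z / M z) :=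
    Complex.differentiableOn_sqrt.analyticAt (Complex.isOpen_slitPlane.mem_nhds hs)
  have aT : AnalyticAt ℂ (TT N M) z :=
    AnalyticAt.comp_of_eq (g := Complex.sqrt) (f := fun z : ℂ => N z / M z) aS aQ rfl
  refine ⟨(((analyticAt_const.add aT).pow 2).mul aM).div aE hE, ?_⟩
  unfold FF
  apply div_ne_zero (mul_ne_zero (pow_ne_zero 2 _) hM) hE
  intro h0
  have h1 := congrArg Complex.re h0
  rw [Complex.add_re, Complex.one_re, Complex.zero_re] at h1
  have h2 : 0 < (TT N M z).re := re_sqrt_pos hs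
  linarith

/-- main computation -/
lemma Data.key (h : Data U N M E a n) {z : ℂ} (hz : z ∈ dom U N M) (hza : z ≠ a) :
    0 < gg n N M E a z ∧
      Real.cosh (n * gg n N M E a z) * ‖M z - N z‖ = ‖N z‖ + ‖M z‖ := by
  obtain ⟨hM, hs⟩ := div_mem hz.2
  have hE := h.hE z hz.1
  have hn : (0 : ℝ) < n := by exact_mod_cast h.npos
  set T := TT N M z with hT
  have hT2 : T ^ 2 = N z / M z := sqrt_sq' _
  have hTre : 0 < T.re := re_sqrt_pos hs
  have hz0 : z - a ≠ 0 := sub_ne_zero.2 hza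
  have hD : M z - N z ≠ 0 := by
    rw [h.fac]; exact mul_ne_zero (pow_ne_zero n hz0) hE
  have hDn : 0 < ‖M z - N z‖ := norm_pos_iff.2 hD
  have hMn : 0 < ‖M z‖ := norm_pos_iff.2 hM
  have h1T : 1 + T ≠ 0 := by
    intro h0
    have h1 := congrArg Complex.re h0
    rw [Complex.add_re, Complex.one_re, Complex.zero_re] at h1
    linarith
  have hp : 0 < ‖1 + T‖ := norm_pos_iff.2 h1T
  -- the factorisation
  have hfac : M z - N z = M z * ((1 - T) * (1 + T)) := by
    have : (1 - T) * (1 + T) = 1 - T ^ 2 := by ring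
    rw [this, hT2]; field_simp
  have hNM : ‖N z‖ = ‖M z‖ * ‖T‖ ^ 2 := by
    rw [← norm_pow, hT2, norm_div]; field_simp
  have hq : 0 < ‖1 - T‖ := by
    rw [norm_pos_iff]
    intro h0
    rw [h0, zero_mul, mul_zero] at hfac
    exact hD hfac
  have hpar : ‖1 + T‖ ^ 2 + ‖1 - T‖ ^ 2 = 2 * (1 + ‖T‖ ^ 2) := by
    rw [← Complex.normSq_eq_norm_sq, ← Complex.normSq_eq_norm_sq, ← Complex.normSq_eq_norm_sq,
      Complex.normSq_apply, Complex.normSq_apply, Complex.normSq_apply]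
    simp only [Complex.add_re, Complex.add_im, Complex.sub_re, Complex.sub_im, Complex.one_re,
      Complex.one_im]
    ring
  have hlt : ‖1 - T‖ ^ 2 < ‖1 + T‖ ^ 2 := by
    rw [← Complex.normSq_eq_norm_sq, ← Complex.normSq_eq_norm_sq,
      Complex.normSq_apply, Complex.normSq_apply]
    simp only [Complex.add_re, Complex.add_im, Complex.sub_re, Complex.sub_im, Complex.one_re,
      Complex.one_im]
    nlinarith
  have hlt' : ‖1 - T‖ < ‖1 + T‖ := lt_of_pow_lt_pow_left₀ 2 hp.le hlt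
  have hexp : (n : ℝ) * gg n N M E a z = Real.log (‖1 + T‖ / ‖1 - T‖) := by
    unfold gg FF
    rw [← hT, norm_div, norm_mul, norm_pow]
    have e1 : ‖E z‖ = ‖M z - N z‖ / ‖z - a‖ ^ n := by
      rw [h.fac, norm_mul, norm_pow]
      have : ‖z - a‖ ≠ 0 := norm_ne_zero_iff.2 hz0
      field_simp
    have hzn : 0 < ‖z - a‖ := norm_pos_iff.2 hz0
    have e2 : ‖1 + T‖ ^ 2 * ‖M z‖ / ‖E z‖ = (‖1 + T‖ / ‖1 - T‖) * ‖z - a‖ ^ n := by
      rw [e1, hfac, norm_mul, norm_mul]
      field_simp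
    rw [e2, Real.log_mul (by positivity) (by positivity), Real.log_pow]
    field_simp
    ring
  have hpos : 0 < (n : ℝ) * gg n N M E a z := by
    rw [hexp]
    apply Real.log_pos
    rw [lt_div_iff₀ hq]
    linarith
  refine ⟨(pos_iff_pos_of_mul_pos hpos).1 hn, ?_⟩
  rw [hexp, Real.cosh_eq, Real.exp_neg, Real.exp_log (by positivity), hNM, hfac, norm_mul,
    norm_mul]
  have : ‖M z‖ * ‖T‖ ^ 2 + ‖M z‖ = ‖M z‖ * ((‖1 + T‖ ^ 2 + ‖1 - T‖ ^ 2) / 2) := by
    rw [hpar]; ring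
  rw [this]
  field_simp

lemma Data.lt_iff (h : Data U N M E a n) {z : ℂ} (hz : z ∈ dom U N M) (hza : z ≠ a) {lam : ℝ}
    (hl : 0 ≤ lam) : lam < gg n N M E a z ↔
      Real.cosh (n * lam) * ‖M z - N z‖ < ‖N z‖ + ‖M z‖ := by
  obtain ⟨h1, h2⟩ := h.key hz hza
  have hn : (0 : ℝ) < n := by exact_mod_cast h.npos
  have hz0 : z - a ≠ 0 := sub_ne_zero.2 hza
  have hD : M z - N z ≠ 0 := by
    rw [h.fac]; exact mul_ne_zero (pow_ne_zero n hz0) (h.hE z hz.1)
  have hDn : 0 < ‖M z - N z‖ := norm_pos_iff.2 hD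
  rw [← h2, mul_lt_mul_iff_left₀ hDn, Real.cosh_lt_cosh, abs_of_nonneg (by positivity),
    abs_of_nonneg (by positivity), mul_lt_mul_iff_right₀ hn]

lemma Data.le_iff (h : Data U N M E a n) {z : ℂ} (hz : z ∈ dom U N M) (hza : z ≠ a) {lam : ℝ}
    (hl : 0 ≤ lam) (hle : lam ≤ gg n N M E a z) :
      Real.cosh (n * lam) * ‖M z - N z‖ ≤ ‖N z‖ + ‖M z‖ := by
  obtain ⟨h1, h2⟩ := h.key hz hza
  have hn : (0 : ℝ) < n := by exact_mod_cast h.npos
  rw [← h2]
  apply mul_le_mul_of_nonneg_right _ (norm_nonneg _)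
  rw [Real.cosh_le_cosh, abs_of_nonneg (by positivity), abs_of_nonneg (by positivity)]
  exact mul_le_mul_of_nonneg_left hle hn.le

lemma Data.logPole (h : Data U N M E a n) : HasLogPole (dom U N M) a (gg n N M E a) := by
  refine ⟨?_, fun z hz => (h.key hz.1 hz.2).1, ?_⟩
  · rintro z ⟨hz, hza⟩
    have hza' : z ≠ a := hza
    obtain ⟨h1, h2⟩ := h.anF hz
    have h3 : HarmonicAt (fun z => Real.log ‖FF N M E z‖) z := h1.harmonicAt_log_norm h2
    have h4 : AnalyticAt ℂ (fun z : ℂ => z - a) z := by fun_prop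
    have h5 : HarmonicAt (fun z => Real.log ‖z - a‖) z :=
      h4.harmonicAt_log_norm (sub_ne_zero.2 hza')
    exact (h3.const_smul (c := (1 / (n : ℝ)))).sub h5
  · refine ⟨fun z => (1 / (n : ℝ)) * Real.log ‖FF N M E z‖, ?_, Eventually.of_forall fun z => rfl⟩
    obtain ⟨h1, h2⟩ := h.anF h.mem
    have h3 : HarmonicAt (fun z => Real.log ‖FF N M E z‖) a := h1.harmonicAt_log_norm h2
    exact h3.const_smul (c := (1 / (n : ℝ)))

lemma Data.isGreen (h : Data U N M E a n) : IsGreen (dom U N M) a (gg n N M E a) := by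
  refine ⟨h.logPole, fun k hk => ?_⟩
  have h1 := h.logPole
  refine Pool.Agent.H4.GS.Mn.minimal_of_compact h.isOpen h.mem ⟨h1.harm, h1.pos, h1.pole⟩ ?_
    ⟨hk.harm, hk.pos, hk.pole⟩
  intro ε hε
  have hn : (0 : ℝ) < n := by exact_mod_cast h.npos
  have hc : 1 < Real.cosh (n * ε) := Real.one_lt_cosh.2 (by positivity)
  obtain ⟨K, hK, hKU, hKs⟩ := h.cpt _ hc
  refine ⟨K ∩ {z | Real.cosh (n * ε) * ‖M z - N z‖ ≤ ‖N z‖ + ‖M z‖}, ?_, ?_, ?_⟩
  · apply hK.inter_right
    apply isClosed_le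
    · exact continuous_const.mul (h.anM.continuous.sub h.anN.continuous).norm
    · exact h.anN.continuous.norm.add h.anM.continuous.norm
  · rintro z ⟨hzK, hz⟩
    refine ⟨hKU hzK, ?_⟩
    simp only [mem_ofPred_eq] at hz
    by_cases hD : M z - N z = 0
    · -- then `z = a`
      have := h.fac z
      rw [hD] at this
      rcases mul_eq_zero.1 this.symm with h0 | h0
      · have : z = a := sub_eq_zero.1 (pow_eq_zero_iff h.npos.ne' |>.1 h0)
        rw [this]; exact h.mem.2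
      · exact absurd h0 (h.hE z (hKU hzK))
    · have hDn : 0 < ‖M z - N z‖ := norm_pos_iff.2 hD
      nlinarith
  · rintro z ⟨hz, hza⟩ hle
    have h2 := h.le_iff hz hza hε.le hle
    exact ⟨hKs z hz.1 h2, h2⟩

/-- explicit description of the level sets -/
lemma Data.levelSet_eq (h : Data U N M E a n) {g : ℂ → ℝ} (hg : IsGreen (dom U N M) a g)
    {lam : ℝ} (hl : 0 ≤ lam) : levelSet (dom U N M) a g lam =
      {z | z ∈ U ∧ Real.cosh (n * lam) * ‖M z - N z‖ < ‖N z‖ + ‖M z‖} := by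
  rw [levelSet_congr hg h.isGreen]
  ext z
  simp only [levelSet, mem_ofPred_eq]
  constructor
  · rintro ⟨hz, h1⟩
    refine ⟨hz.1, ?_⟩
    by_cases hza : z = a
    · have h2 := h.fac z
      have hn : n ≠ 0 := h.npos.ne'
      rw [hza, sub_self, zero_pow hn, zero_mul] at h2
      have h3 := h.mem.2
      rw [h2, norm_zero] at h3
      rw [hza, h2, norm_zero, mul_zero]
      exact h3
    · exact (h.lt_iff hz hza hl).1 (h1.resolve_left hza)
  · rintro ⟨hzU, h1⟩
    have hz : z ∈ dom U N M := by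
      refine ⟨hzU, lt_of_le_of_lt ?_ h1⟩
      have := Real.one_le_cosh (n * lam)
      have h2 := norm_nonneg (M z - N z)
      nlinarith
    refine ⟨hz, ?_⟩
    by_cases hza : z = a
    · exact Or.inl hza
    · exact Or.inr ((h.lt_iff hz hza hl).2 h1)

end Pool.Agent.H4.GS
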