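import Mathlib
import Pool.Agent.H4.GS.Green

set_option autoImplicit false

open Set Filter Topology Metric InnerProductSpace MeasureTheory

namespace Pool.Agent.H4.GS

lemma norm_polar {r : ℝ} (hr : 0 < r) (θ : ℝ) :
    ‖(r : ℂ) * Complex.exp ((θ : ℂ) * Complex.I)‖ = r := by
  rw [norm_mul, Complex.norm_exp_ofReal_mul_I, Complex.norm_real, Real.norm_eq_abs,
    abs_of_pos hr, mul_one]

/-- symmetrisation of a set whose complement meets each relevant circle only at `±r` -/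
lemma symm_eq {E : Set ℂ} {I : Set ℝ} (hI : ∀ z ∈ E, z ≠ 0 → ‖z‖ ∈ I) (h0 : (0 : ℂ) ∉ E)
    (h1 : ∀ z : ℂ, z.im ≠ 0 → ‖z‖ ∈ I → z ∈ E)
    (h2 : ∀ r ∈ I, 0 < r → (r : ℂ) ∉ E ∨ ((-r : ℝ) : ℂ) ∉ E) :
    circSymm E = {z | ‖z‖ ∈ I ∧ z ∈ Complex.slitPlane} := by
  have hmeas : ∀ r ∈ I, 0 < r → angMeas E r = 2 * Real.pi := by
    intro r hrI hr
    unfold angMeas
    have hsub : Ioc (-Real.pi) Real.pi \ {0, Real.pi} ⊆
        {θ : ℝ | θ ∈ Ioc (-Real.pi) Real.pi ∧
          (r : ℂ) * Complex.exp ((θ : ℂ) * Complex.I) ∈ E} := by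
      rintro θ ⟨hθ, hθ0⟩
      refine ⟨hθ, h1 _ ?_ (by rw [norm_polar hr]; exact hrI)⟩
      rw [Complex.exp_mul_I]
      simp only [Complex.mul_im, Complex.ofReal_re, Complex.add_im, Complex.add_re,
        Complex.ofReal_im, zero_mul, add_zero, ← Complex.ofReal_cos, ← Complex.ofReal_sin,
        Complex.I_im, Complex.I_re, mul_one, zero_add, mul_zero]
      simp only [mem_insert_iff, mem_singleton_iff, not_or] at hθ0
      have hs : Real.sin θ ≠ 0 := by
        rcases lt_or_gt_of_ne hθ0.1 with h | h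
        · exact (Real.sin_neg_of_neg_of_neg_pi_lt h hθ.1).ne
        · exact (Real.sin_pos_of_pos_of_lt_pi h (lt_of_le_of_ne hθ.2 hθ0.2)).ne'
      have : r * Real.sin θ ≠ 0 := mul_ne_zero hr.ne' hs
      simpa using this
    have hsup : {θ : ℝ | θ ∈ Ioc (-Real.pi) Real.pi ∧
          (r : ℂ) * Complex.exp ((θ : ℂ) * Complex.I) ∈ E} ⊆ Ioc (-Real.pi) Real.pi :=
      fun θ hθ => hθ.1
    have hv : volume (Ioc (-Real.pi) Real.pi \ {0, Real.pi}) = volume (Ioc (-Real.pi) Real.pi) := by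
      apply measure_sdiff_null
      exact (Set.toFinite {0, Real.pi}).measure_zero _
    have h3 : volume {θ : ℝ | θ ∈ Ioc (-Real.pi) Real.pi ∧
          (r : ℂ) * Complex.exp ((θ : ℂ) * Complex.I) ∈ E} = volume (Ioc (-Real.pi) Real.pi) := by
      apply le_antisymm (measure_mono hsup)
      rw [← hv]
      exact measure_mono hsub
    rw [measureReal_def, h3, Real.volume_Ioc, ENNReal.toReal_ofReal (by linarith [Real.pi_pos])]
    ring
  ext z
  simp only [circSymm, mem_ofPred_eq]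
  by_cases hz0 : z = 0
  · subst hz0
    simp [h0]
  have hr : 0 < ‖z‖ := norm_pos_iff.2 hz0
  have hnot : ∀ r ∈ I, 0 < r → ¬ sphere (0 : ℂ) r ⊆ E := by
    intro r hrI hr h
    rcases h2 r hrI hr with h3 | h3
    · exact h3 (h (by rw [mem_sphere_zero_iff_norm, Complex.norm_real, Real.norm_eq_abs,
        abs_of_pos hr]))
    · exact h3 (h (by rw [mem_sphere_zero_iff_norm, Complex.norm_real, Real.norm_eq_abs,
        abs_neg, abs_of_pos hr]))
  by_cases hzI : ‖z‖ ∈ I
  · have hne : (sphere (0 : ℂ) ‖z‖ ∩ E).Nonempty := by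
      refine ⟨(‖z‖ : ℂ) * Complex.I, ?_, h1 _ ?_ ?_⟩
      · rw [mem_sphere_zero_iff_norm]; simp
      · simp [hz0]
      · simpa using hzI
    simp only [hz0, false_and, hnot _ hzI hr, and_false, false_or, ne_eq, not_false_eq_true,
      true_and, hne, hmeas _ hzI hr, hzI]
    rw [show 2 * Real.pi / 2 = Real.pi by ring, Complex.mem_slitPlane_iff_arg]
    constructor
    · intro h
      refine ⟨fun h4 => ?_, hz0⟩
      rw [h4, abs_of_pos Real.pi_pos] at h
      exact lt_irrefl _ h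
    · rintro ⟨h, -⟩
      exact lt_of_le_of_ne (Complex.abs_arg_le_pi z) (fun h2 => by
        rcases eq_or_eq_neg_of_abs_eq h2 with h3 | h3
        · exact h h3
        · have := Complex.neg_pi_lt_arg z
          linarith)
  · have hno : ∀ w ∈ sphere (0 : ℂ) ‖z‖, w ∉ E := by
      intro w hw hwE
      rw [mem_sphere_zero_iff_norm] at hw
      apply hzI
      rw [← hw]
      exact hI w hwE (by rintro rfl; rw [norm_zero] at hw; linarith)
    simp only [hz0, false_and, false_or, ne_eq, not_false_eq_true, true_and, hzI, iff_false,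
      not_or]
    constructor
    · intro h
      exact hno z (by rw [mem_sphere_zero_iff_norm]) (h (by rw [mem_sphere_zero_iff_norm]))
    · rintro ⟨-, ⟨w, hw, hwE⟩, -⟩
      exact hno w hw hwE

/-- if `L` contains all points of the circle with `c₁ ≤ cos θ`, then the point with `cos θ = c`,
`c₁ < c`, is in `L^*` -/
lemma mem_symm {L : Set ℂ} {r c₁ c : ℝ} (hr : 0 < r) (h1 : -1 ≤ c₁) (h2 : c₁ < c) (h3 : c ≤ 1)
    (hL : ∀ θ : ℝ, c₁ ≤ Real.cos θ → (r : ℂ) * Complex.exp ((θ : ℂ) * Complex.I) ∈ L) :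
    (r : ℂ) * Complex.exp ((Real.arccos c : ℂ) * Complex.I) ∈ circSymm L := by
  set z : ℂ := (r : ℂ) * Complex.exp ((Real.arccos c : ℂ) * Complex.I) with hz
  have hn : ‖z‖ = r := norm_polar hr _
  have hz0 : z ≠ 0 := by rw [← norm_pos_iff, hn]; exact hr
  have hzL : z ∈ L := hL _ (by rw [Real.cos_arccos (by linarith) h3]; exact h2.le)
  simp only [circSymm, mem_ofPred_eq, hn]
  by_cases hs : sphere (0 : ℂ) r ⊆ L
  · exact Or.inr (Or.inl ⟨hz0, hs⟩)
  right; right
  refine ⟨hz0, hs, ⟨z, by rw [mem_sphere_zero_iff_norm, hn], hzL⟩, ?_⟩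
  have harg : Complex.arg z = Real.arccos c := by
    rw [hz, Complex.arg_real_mul _ hr, Complex.arg_exp_mul_I,
      (toIocMod_eq_self Real.two_pi_pos).2]
    constructor
    · have := Real.arccos_nonneg c
      have := Real.pi_pos
      linarith
    · have := Real.arccos_le_pi c
      have := Real.pi_pos
      linarith
  rw [harg, abs_of_nonneg (Real.arccos_nonneg c)]
  have hlt : Real.arccos c < Real.arccos c₁ := Real.arccos_lt_arccos h1 h2 h3
  refine lt_of_lt_of_le hlt ?_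
  have hsub : Ioc (-Real.arccos c₁) (Real.arccos c₁) ⊆ {θ : ℝ | θ ∈ Ioc (-Real.pi) Real.pi ∧
      (r : ℂ) * Complex.exp ((θ : ℂ) * Complex.I) ∈ L} := by
    intro θ hθ
    have h4 := Real.arccos_le_pi c₁
    refine ⟨⟨by linarith [hθ.1], by linarith [hθ.2]⟩, hL θ ?_⟩
    have h5 : |θ| ≤ Real.arccos c₁ := abs_le.2 ⟨hθ.1.le, hθ.2⟩
    rw [← Real.cos_abs θ]
    have := Real.cos_le_cos_of_nonneg_of_le_pi (abs_nonneg θ) h4 h5
    rw [Real.cos_arccos h1 (by linarith)] at this
    exact this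
  have hfin : volume {θ : ℝ | θ ∈ Ioc (-Real.pi) Real.pi ∧
      (r : ℂ) * Complex.exp ((θ : ℂ) * Complex.I) ∈ L} ≠ ⊤ := by
    apply ne_top_of_le_ne_top _ (measure_mono (fun θ hθ => hθ.1 : _ ⊆ Ioc (-Real.pi) Real.pi))
    rw [Real.volume_Ioc]; exact ENNReal.ofReal_ne_top
  have hle : volume.real (Ioc (-Real.arccos c₁) (Real.arccos c₁)) ≤ angMeas L r :=
    measureReal_mono hsub hfin
  rw [measureReal_def, Real.volume_Ioc, ENNReal.toReal_ofReal
    (by linarith [Real.arccos_nonneg c₁])] at hle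
  linarith

end Pool.Agent.H4.GS
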