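import Mathlib
import Pool.Agent.H4.GS.Symm

set_option autoImplicit false

open Set Filter Topology Metric InnerProductSpace MeasureTheory

namespace Pool.Agent.H4.GS

lemma choose_X {G w : ℝ → ℝ} {β k : ℝ} (hG : ContinuousOn G (Icc 0 2)) (hG0 : G 0 = 0)
    (hGd : HasDerivAt G k 0) (hβ : 0 < β) (hk : β < k) (hGpos : ∀ X ∈ Ioc (0 : ℝ) 2, 0 < G X)
    (hw : ContinuousAt w 0) (hw0 : 0 < w 0) (hwle : ∀ X ∈ Icc (0 : ℝ) 2, w X ≤ w 0) :
    ∃ X₁ Xs : ℝ, 0 < X₁ ∧ X₁ < Xs ∧ Xs < 2 ∧ 0 < w Xs ∧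
      ∀ X ∈ Icc X₁ 2, β * Xs * w X < G X * w Xs := by
  -- `q * k' > β`
  set k' : ℝ := (β + k) / 2 with hk'
  have hk'1 : β < k' := by rw [hk']; linarith
  have hk'2 : k' < k := by rw [hk']; linarith
  have hk'0 : 0 < k' := by linarith
  set q : ℝ := (β + k') / (2 * k') with hq
  have hq1 : q < 1 := by rw [hq, div_lt_one (by positivity)]; linarith
  have hq0 : 0 < q := by rw [hq]; positivity
  have hqk : β < q * k' := by
    rw [hq]
    have : (β + k') / (2 * k') * k' = (β + k') / 2 := by field_simp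
    rw [this]; linarith
  -- near zero
  have hnear : ∀ᶠ X in 𝓝[>] (0 : ℝ), k' * X ≤ G X := by
    have h1 := hGd.tendsto_slope_zero_right
    have h2 : ∀ᶠ t in 𝓝[>] (0 : ℝ), k' < t⁻¹ • (G (0 + t) - G 0) := h1.eventually_const_lt hk'2
    filter_upwards [h2, self_mem_nhdsWithin] with t ht ht0
    have ht0' : 0 < t := ht0
    rw [hG0, sub_zero, zero_add, smul_eq_mul] at ht
    have h3 : k' * t < t⁻¹ * G t * t := mul_lt_mul_of_pos_right ht ht0'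
    have h4 : t⁻¹ * G t * t = G t := by field_simp
    linarith
  obtain ⟨δ₀, hδ₀, hδ₀'⟩ := mem_nhdsGT_iff_exists_Ioo_subset.1 hnear
  set δ : ℝ := min (δ₀ / 2) 1 with hδ
  have hδ₀0 : (0 : ℝ) < δ₀ := hδ₀
  have hδ0 : 0 < δ := by rw [hδ]; exact lt_min (by linarith) one_pos
  have hδ1 : δ < δ₀ := by rw [hδ]; exact lt_of_le_of_lt (min_le_left _ _) (by linarith)
  have hδ2 : δ ≤ 1 := min_le_right _ _
  -- the compact part
  obtain ⟨p, hp, hpm⟩ := (isCompact_Icc (a := δ) (b := (2 : ℝ))).exists_isMinOn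
    ⟨δ, left_mem_Icc.2 (by linarith)⟩ (hG.mono (Icc_subset_Icc hδ0.le le_rfl))
  have hη : 0 < G p := hGpos p ⟨by linarith [hp.1], hp.2⟩
  -- choose `Xs`
  have e1 : ∀ᶠ X in 𝓝 (0 : ℝ), β * w 0 < q * k' * w X := by
    have h1 : Tendsto (fun X => q * k' * w X) (𝓝 0) (𝓝 (q * k' * w 0)) :=
      (tendsto_const_nhds).mul hw.tendsto
    exact h1.eventually_const_lt (mul_lt_mul_of_pos_right hqk hw0)
  have e2 : ∀ᶠ X in 𝓝 (0 : ℝ), β * X * w 0 < G p * w X := by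
    have h1 : Tendsto (fun X => G p * w X - β * X * w 0) (𝓝 0) (𝓝 (G p * w 0 - β * 0 * w 0)) := by
      apply Tendsto.sub
      · exact tendsto_const_nhds.mul hw.tendsto
      · exact (tendsto_const_nhds.mul tendsto_id).mul tendsto_const_nhds
    have h2 : ∀ᶠ X in 𝓝 (0 : ℝ), 0 < G p * w X - β * X * w 0 := by
      apply h1.eventually_const_lt
      have := mul_pos hη hw0
      linarith
    filter_upwards [h2] with X hX
    linarith
  have e3 : ∀ᶠ X in 𝓝 (0 : ℝ), 0 < w X := hw.tendsto.eventually_const_lt hw0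
  have e4 : ∀ᶠ X in 𝓝 (0 : ℝ), X < 2 := by
    exact (continuous_id.tendsto (0 : ℝ)).eventually_lt_const (by norm_num : (0 : ℝ) < 2)
  have e5 := (e1.and (e2.and (e3.and e4)))
  have e6 : ∀ᶠ X in 𝓝[>] (0 : ℝ), (β * w 0 < q * k' * w X ∧ β * X * w 0 < G p * w X ∧
      0 < w X ∧ X < 2) ∧ X ∈ Ioi (0 : ℝ) :=
    (e5.filter_mono nhdsWithin_le_nhds).and self_mem_nhdsWithin
  obtain ⟨Xs, ⟨h1, h2, h3, h4⟩, h5⟩ := e6.exists
  have h5' : 0 < Xs := h5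
  refine ⟨q * Xs, Xs, by positivity, by nlinarith, h4, h3, ?_⟩
  rintro X ⟨hX1, hX2⟩
  have hX0 : 0 < X := lt_of_lt_of_le (by positivity) hX1
  have hwX := hwle X ⟨hX0.le, hX2⟩
  have h6 : β * Xs * w X ≤ β * Xs * w 0 := mul_le_mul_of_nonneg_left hwX (by positivity)
  rcases le_or_gt X δ with hXδ | hXδ
  · have h7 : k' * X ≤ G X := hδ₀' ⟨hX0, lt_of_le_of_lt hXδ hδ1⟩
    calc β * Xs * w X ≤ β * Xs * w 0 := h6
      _ = (β * w 0) * Xs := by ring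
      _ < (q * k' * w Xs) * Xs := mul_lt_mul_of_pos_right h1 h5'
      _ = (k' * (q * Xs)) * w Xs := by ring
      _ ≤ (k' * X) * w Xs := by gcongr
      _ ≤ G X * w Xs := by gcongr
  · have h7 : G p ≤ G X := hpm ⟨hXδ.le, hX2⟩
    calc β * Xs * w X ≤ β * Xs * w 0 := h6
      _ < G p * w Xs := h2
      _ ≤ G X * w Xs := by gcongr

/-- `λ` with prescribed `sinh² λ` -/
lemma exists_lam {σ : ℝ} (hσ : 0 < σ) : ∃ lam : ℝ, 0 < lam ∧ Real.cosh lam ^ 2 = 1 + σ ∧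
    Real.cosh (2 * lam) = 1 + 2 * σ := by
  refine ⟨Real.arsinh (√σ), Real.arsinh_pos_iff.2 (Real.sqrt_pos.2 hσ), ?_, ?_⟩
  · rw [Real.cosh_sq, Real.sinh_arsinh, Real.sq_sqrt hσ.le]; ring
  · rw [Real.cosh_two_mul, Real.cosh_sq, Real.sinh_arsinh, Real.sq_sqrt hσ.le]; ring

/-- The failure of the inclusion, abstractly: `D` is of square-root type with `n = 2`, `D*` with
`n = 1`. -/
lemma failure {U : Set ℂ} {N M E Ns Ms Es : ℂ → ℂ} {a : ℂ} (h : Data U N M E a 2)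
    (hs : Data U Ns Ms Es a 1) {r : ℝ} (hr : 0 < r)
    (hU : ∀ θ : ℝ, (r : ℂ) * Complex.exp ((θ : ℂ) * Complex.I) ∈ U)
    {G w : ℝ → ℝ} {β k c₀ c₁ : ℝ} (hG : ContinuousOn G (Icc 0 2)) (hG0 : G 0 = 0)
    (hGd : HasDerivAt G k 0) (hβ : 0 < β) (hk : β < k)
    (hw : ContinuousAt w 0) (hw0 : 0 < w 0) (hwle : ∀ X ∈ Icc (0 : ℝ) 2, w X ≤ w 0)
    (hc₁ : 0 < c₁) (hβ' : β = 2 * c₀ * c₁)
    -- on the circle
    (hD : ∀ θ : ℝ, -1 < Real.cos θ → (r : ℂ) * Complex.exp ((θ : ℂ) * Complex.I) ∈ dom U N M)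
    (hm : ∀ θ : ℝ, ‖M ((r : ℂ) * Complex.exp ((θ : ℂ) * Complex.I)) -
      N ((r : ℂ) * Complex.exp ((θ : ℂ) * Complex.I))‖ = c₀ * w (1 + Real.cos θ))
    (hf : ∀ θ : ℝ, ‖N ((r : ℂ) * Complex.exp ((θ : ℂ) * Complex.I))‖ +
      ‖M ((r : ℂ) * Complex.exp ((θ : ℂ) * Complex.I))‖ =
        c₀ * w (1 + Real.cos θ) + G (1 + Real.cos θ))
    {c₂ : ℝ} (hc₂ : 0 < c₂)
    (hms : ∀ θ : ℝ, ‖Ms ((r : ℂ) * Complex.exp ((θ : ℂ) * Complex.I)) -
      Ns ((r : ℂ) * Complex.exp ((θ : ℂ) * Complex.I))‖ ^ 2 = c₂ * w (1 + Real.cos θ))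
    (hfs : ∀ θ : ℝ, (‖Ns ((r : ℂ) * Complex.exp ((θ : ℂ) * Complex.I))‖ +
      ‖Ms ((r : ℂ) * Complex.exp ((θ : ℂ) * Complex.I))‖) ^ 2 =
        c₂ * w (1 + Real.cos θ) + c₂ * c₁ * (1 + Real.cos θ)) :
    ∀ g gs : ℂ → ℝ, IsGreen (dom U N M) a g → IsGreen (dom U Ns Ms) a gs →
      ∃ lam : ℝ, 0 < lam ∧
        ¬ circSymm (levelSet (dom U N M) a g lam) ⊆ levelSet (dom U Ns Ms) a gs lam := by
  intro g gs hg hgs
  have hGpos : ∀ X ∈ Ioc (0 : ℝ) 2, 0 < G X := by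
    rintro X ⟨hX0, hX2⟩
    have h1 : Real.cos (Real.arccos (X - 1)) = X - 1 :=
      Real.cos_arccos (by linarith) (by linarith)
    have h2 := (hD (Real.arccos (X - 1)) (by rw [h1]; linarith)).2
    rw [hm, hf, h1, show 1 + (X - 1) = X by ring] at h2
    linarith
  obtain ⟨X₁, Xs, h1, h2, h3, h4, h5⟩ := choose_X hG hG0 hGd hβ hk hGpos hw hw0 hwle
  have hXs : 0 < Xs := by linarith
  set σ : ℝ := c₁ * Xs / w Xs with hσ
  have hσ0 : 0 < σ := by rw [hσ]; positivity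
  obtain ⟨lam, hl, hc1, hc2⟩ := exists_lam hσ0
  refine ⟨lam, hl, fun hsub => ?_⟩
  have hmem : (r : ℂ) * Complex.exp ((Real.arccos (Xs - 1) : ℂ) * Complex.I) ∈
      circSymm (levelSet (dom U N M) a g lam) := by
    apply mem_symm (c₁ := X₁ - 1) hr (by linarith) (by linarith) (by linarith)
    intro θ hθ
    rw [h.levelSet_eq hg hl.le]
    refine ⟨hU θ, ?_⟩
    rw [hm, hf]
    push_cast
    rw [hc2]
    have h6 := h5 (1 + Real.cos θ) ⟨by linarith, by linarith [Real.cos_le_one θ]⟩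
    have h7 : 2 * σ * (c₀ * w (1 + Real.cos θ)) < G (1 + Real.cos θ) := by
      rw [hσ]
      have h8 : 2 * (c₁ * Xs / w Xs) * (c₀ * w (1 + Real.cos θ)) =
          β * Xs * w (1 + Real.cos θ) / w Xs := by
        rw [hβ']; ring
      rw [h8, div_lt_iff₀ h4]
      exact h6
    linarith
  have hmem2 := hsub hmem
  rw [hs.levelSet_eq hgs hl.le] at hmem2
  have h6 := hmem2.2
  push_cast at h6
  rw [one_mul] at h6
  have hcos : Real.cos (Real.arccos (Xs - 1)) = Xs - 1 :=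
    Real.cos_arccos (by linarith) (by linarith)
  have h7 := hms (Real.arccos (Xs - 1))
  have h8 := hfs (Real.arccos (Xs - 1))
  rw [hcos, show 1 + (Xs - 1) = Xs by ring] at h7 h8
  have h9 : (Real.cosh lam * ‖Ms ((r : ℂ) * Complex.exp ((Real.arccos (Xs - 1) : ℂ) * Complex.I)) -
      Ns ((r : ℂ) * Complex.exp ((Real.arccos (Xs - 1) : ℂ) * Complex.I))‖) ^ 2 <
      (‖Ns ((r : ℂ) * Complex.exp ((Real.arccos (Xs - 1) : ℂ) * Complex.I))‖ +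
      ‖Ms ((r : ℂ) * Complex.exp ((Real.arccos (Xs - 1) : ℂ) * Complex.I))‖) ^ 2 := by
    apply pow_lt_pow_left₀ h6 _ two_ne_zero
    have := Real.cosh_pos lam
    positivity
  rw [mul_pow, h7, h8, hc1] at h9
  have h10 : (1 + σ) * (c₂ * w Xs) = c₂ * w Xs + c₂ * c₁ * Xs := by
    rw [hσ]; field_simp
  rw [h10] at h9
  exact lt_irrefl _ h9

end Pool.Agent.H4.GS
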