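import Mathlib
import Pool.Agent.H4.GS.Viol

set_option autoImplicit false

open Set Filter Topology Metric InnerProductSpace MeasureTheory

namespace Pool.Agent.H4.GS

/-- sign of `(x - s) x (x + s)` -/
lemma cubic_pos {s x : ℝ} (hs : 0 < s) :
    0 < (x - s) * (x * (x + s)) ↔ ¬ (x ≤ -s ∨ (0 ≤ x ∧ x ≤ s)) := by
  constructor
  · rintro h (h1 | ⟨h1, h2⟩)
    · have h3 : 0 ≤ x * (x + s) := mul_nonneg_of_nonpos_of_nonpos (by linarith) (by linarith)
      have h4 : (x - s) * (x * (x + s)) ≤ 0 := mul_nonpos_of_nonpos_of_nonneg (by linarith) h3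
      linarith
    · have h3 : 0 ≤ x * (x + s) := mul_nonneg (by linarith) (by linarith)
      have h4 : (x - s) * (x * (x + s)) ≤ 0 := mul_nonpos_of_nonpos_of_nonneg (by linarith) h3
      linarith
  · intro h
    push Not at h
    obtain ⟨h1, h2⟩ := h
    rcases le_or_gt 0 x with hx | hx
    · have h3 := h2 hx
      have h4 : 0 < x * (x + s) := mul_pos (by linarith) (by linarith)
      exact mul_pos (by linarith) h4
    · have h4 : x * (x + s) < 0 := mul_neg_of_neg_of_pos hx (by linarith)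
      exact mul_pos_of_neg_of_neg (by linarith) h4

/-- squares of distances on circles -/
lemma norm_add_sq_polar (r c θ : ℝ) :
    ‖(r : ℂ) * Complex.exp ((θ : ℂ) * Complex.I) + (c : ℂ)‖ ^ 2 =
      (r - c) ^ 2 + 2 * r * c * (1 + Real.cos θ) := by
  rw [Complex.sq_norm, Complex.normSq_apply, Complex.exp_mul_I]
  simp only [Complex.add_re, Complex.mul_re, Complex.ofReal_re,
    Complex.ofReal_im, zero_mul, sub_zero, Complex.mul_im, Complex.add_im,
    ← Complex.ofReal_cos, ← Complex.ofReal_sin, Complex.I_re, Complex.I_im, mul_zero, mul_one,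
    zero_add, add_zero]
  linear_combination (r ^ 2) * Real.sin_sq_add_cos_sq θ

lemma norm_add_polar (r c θ : ℝ) :
    ‖(r : ℂ) * Complex.exp ((θ : ℂ) * Complex.I) + (c : ℂ)‖ =
      √((r - c) ^ 2 + 2 * r * c * (1 + Real.cos θ)) := by
  rw [← norm_add_sq_polar, Real.sqrt_sq (norm_nonneg _)]

lemma norm_sub_polar (r c θ : ℝ) :
    ‖(r : ℂ) * Complex.exp ((θ : ℂ) * Complex.I) - (c : ℂ)‖ =
      √((r + c) ^ 2 - 2 * r * c * (1 + Real.cos θ)) := by
  have h := norm_add_polar r (-c) θ
  rw [Complex.ofReal_neg, ← sub_eq_add_neg] at h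
  rw [h]
  congr 1
  ring

lemma norm_sub_sq_polar (r c θ : ℝ) :
    ‖(r : ℂ) * Complex.exp ((θ : ℂ) * Complex.I) - (c : ℂ)‖ ^ 2 =
      (r + c) ^ 2 - 2 * r * c * (1 + Real.cos θ) := by
  have h := norm_add_sq_polar r (-c) θ
  rw [Complex.ofReal_neg, ← sub_eq_add_neg] at h
  rw [h]
  ring

lemma norm_one_add_sq_polar (r c θ : ℝ) :
    ‖1 + (c : ℂ) * ((r : ℂ) * Complex.exp ((θ : ℂ) * Complex.I))‖ ^ 2 =
      (1 - c * r) ^ 2 + 2 * c * r * (1 + Real.cos θ) := by
  rw [Complex.sq_norm, Complex.normSq_apply, Complex.exp_mul_I]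
  simp only [Complex.add_re, Complex.mul_re, Complex.ofReal_re, Complex.one_re, Complex.one_im,
    Complex.ofReal_im, zero_mul, sub_zero, Complex.mul_im, Complex.add_im,
    ← Complex.ofReal_cos, ← Complex.ofReal_sin, Complex.I_re, Complex.I_im, mul_zero, mul_one,
    zero_add, add_zero]
  linear_combination (c ^ 2 * r ^ 2) * Real.sin_sq_add_cos_sq θ

lemma hasDerivAt_sqrt_lin {u : ℝ} (hu : 0 < u) (β : ℝ) :
    HasDerivAt (fun X : ℝ => √(u ^ 2 + β * X)) (β / (2 * u)) 0 := by
  have h1 : HasDerivAt (fun X : ℝ => u ^ 2 + β * X) β 0 := by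
    have := ((hasDerivAt_id (0 : ℝ)).const_mul β).const_add (u ^ 2)
    simpa using this
  have h2 := h1.sqrt (by simp [hu.ne'])
  simpa [Real.sqrt_sq hu.le] using h2

/-! ### The domain -/

/-- `κ = 1 + √2` -/
noncomputable def kap : ℝ := 1 + √2

lemma kap_pos : 0 < kap := by unfold kap; positivity

lemma kap_sq : kap ^ 2 = 2 * kap + 1 := by
  unfold kap
  have := Real.sq_sqrt (show (0 : ℝ) ≤ 2 by norm_num)
  nlinarith

lemma kap_lt : kap < 5 / 2 := by
  unfold kap
  have : √2 < 3 / 2 := by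
    rw [Real.sqrt_lt' (by norm_num)]; norm_num
  linarith

lemma kap_gt : 2 < kap := by
  unfold kap
  have : 1 < √2 := by
    rw [Real.lt_sqrt (by norm_num)]; norm_num
  linarith

noncomputable def N1 (s : ℝ) (z : ℂ) : ℂ := ((kap ^ 2 * s : ℝ) : ℂ) * (z - s)
noncomputable def M1 (s : ℝ) (z : ℂ) : ℂ := z * (z + s)
noncomputable def Ns1 (z : ℂ) : ℂ := z
noncomputable def Ms1 (a : ℝ) (_ : ℂ) : ℂ := a

lemma im_lemma {z : ℂ} (hz : z.im ≠ 0) {t β γ : ℝ} (ht : 0 ≤ t) (hγ : 0 < γ)
    (h : (t : ℂ) * z ^ 2 + (β : ℂ) * z - (γ : ℂ) = 0) : False := by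
  have h1 := congrArg Complex.re h
  have h2 := congrArg Complex.im h
  simp only [pow_two, Complex.add_re, Complex.sub_re, Complex.mul_re, Complex.mul_im,
    Complex.add_im, Complex.sub_im, Complex.ofReal_re, Complex.ofReal_im, Complex.zero_re,
    Complex.zero_im, zero_mul, sub_zero, add_zero] at h1 h2
  have h3 : z.im * (2 * t * z.re + β) = 0 := by linarith
  have h4 : 2 * t * z.re + β = 0 := (mul_eq_zero.1 h3).resolve_left hz
  have h5 : β = -2 * t * z.re := by linarith
  rw [h5] at h1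
  have h6 : 0 ≤ t * (z.re ^ 2 + z.im ^ 2) := by positivity
  nlinarith

lemma re_eq {z : ℂ} (hz : z.im = 0) : z = ((z.re : ℝ) : ℂ) := by
  apply Complex.ext
  · simp
  · simp [hz]

lemma dom1_eq {s : ℝ} (hs : 0 < s) : dom univ (N1 s) (M1 s) =
    {z | ¬ (z.im = 0 ∧ (z.re ≤ -s ∨ (0 ≤ z.re ∧ z.re ≤ s)))} := by
  ext z
  simp only [dom, mem_univ, true_and, mem_ofPred_eq]
  by_cases hz : z.im = 0
  · simp only [hz, true_and]
    rw [← cubic_pos hs, re_eq hz]
    simp only [Complex.ofReal_re]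
    set x := z.re
    have e1 : N1 s (x : ℂ) = ((kap ^ 2 * s * (x - s) : ℝ) : ℂ) := by
      unfold N1; push_cast; ring
    have e2 : M1 s (x : ℂ) = ((x * (x + s) : ℝ) : ℂ) := by
      unfold M1; push_cast; ring
    rw [e1, e2, real_iff]
    have h1 : 0 < kap ^ 2 * s := by have := kap_pos; positivity
    rw [show kap ^ 2 * s * (x - s) * (x * (x + s)) = (kap ^ 2 * s) * ((x - s) * (x * (x + s))) by
      ring, mul_pos_iff_of_pos_left h1]
  · simp only [hz, false_and, not_false_eq_true, iff_true]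
    have hz0 : z ≠ 0 := by rintro rfl; simp at hz
    have hzs : z + s ≠ 0 := by
      intro h
      have := congrArg Complex.im h
      simp at this
      exact hz this
    apply lt_of_not_ray (mul_ne_zero hz0 hzs)
    intro t ht h
    unfold N1 at h
    refine im_lemma hz (β := t * s + kap ^ 2 * s) (γ := kap ^ 2 * s * s) ht ?_ ?_
    · have := kap_pos; positivity
    · push_cast at h ⊢
      linear_combination -h

lemma doms1_eq {a : ℝ} (ha : 0 < a) : dom univ Ns1 (Ms1 a) = Complex.slitPlane := by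
  ext z
  simp only [dom, mem_univ, true_and, mem_ofPred_eq]
  have ha0 : (a : ℂ) ≠ 0 := Complex.ofReal_ne_zero.2 ha.ne'
  constructor
  · intro h
    have h1 := (div_mem h).2
    unfold Ns1 Ms1 at h1
    rw [Complex.mem_slitPlane_iff] at h1 ⊢
    rw [Complex.div_ofReal_re, Complex.div_ofReal_im] at h1
    rcases h1 with h1 | h1
    · left
      have := mul_pos h1 ha
      rwa [div_mul_cancel₀ _ ha.ne'] at this
    · right
      intro h2
      rw [h2, zero_div] at h1
      exact h1 rfl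
  · intro h
    unfold Ns1 Ms1
    apply lt_of_not_ray ha0
    intro t ht h2
    rw [← Complex.ofReal_mul] at h2
    rw [Complex.mem_slitPlane_iff] at h
    have h3 := congrArg Complex.re h2
    have h4 := congrArg Complex.im h2
    rw [Complex.neg_re, Complex.ofReal_re] at h3
    rw [Complex.neg_im, Complex.ofReal_im] at h4
    have : 0 ≤ t * a := by positivity
    rcases h with h | h
    · linarith
    · exact h (by linarith)

lemma data1 {s : ℝ} (hs : 0 < s) :
    Data univ (N1 s) (M1 s) (fun _ => 1) ((kap * s : ℝ) : ℂ) 2 := by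
  have hk := kap_pos
  have ha : 0 < kap * s := by positivity
  have hfac : ∀ z, M1 s z - N1 s z = (z - ((kap * s : ℝ) : ℂ)) ^ 2 * 1 := by
    intro z
    have h1 : ((kap : ℝ) : ℂ) ^ 2 = 2 * ((kap : ℝ) : ℂ) + 1 := by
      rw [← Complex.ofReal_pow, kap_sq]; push_cast; ring
    unfold M1 N1
    push_cast
    linear_combination (-(s : ℂ) * z) * h1
  refine ⟨isOpen_univ, by norm_num, ?_, ?_, ?_, hfac, fun _ _ => one_ne_zero, ?_, ?_⟩
  · unfold N1; fun_prop
  · unfold M1; fun_prop
  · fun_prop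
  · rw [dom1_eq hs]
    simp only [mem_ofPred_eq, Complex.ofReal_im, Complex.ofReal_re, true_and]
    rintro (h | ⟨-, h⟩)
    · linarith
    · have := kap_gt
      nlinarith
  · intro c hc
    set a := kap * s with hadef
    set B := (2 * c * a + kap ^ 2 * s + s) / (c - 1) with hB
    refine ⟨closedBall 0 B, isCompact_closedBall _ _, subset_univ _, ?_⟩
    intro z _ hz
    rw [mem_closedBall_zero_iff]
    by_contra hcon
    push Not at hcon
    rw [hfac z, mul_one, norm_pow] at hz
    have h1 : (‖z‖ - a) ^ 2 ≤ ‖z - (a : ℂ)‖ ^ 2 := by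
      apply sq_le_sq'
      · have := norm_sub_norm_le (a : ℂ) z
        rw [Complex.norm_real, Real.norm_eq_abs, abs_of_pos ha, norm_sub_rev] at this
        linarith
      · have := norm_sub_norm_le z (a : ℂ)
        rw [Complex.norm_real, Real.norm_eq_abs, abs_of_pos ha] at this
        linarith
    have h2 : ‖N1 s z‖ ≤ kap ^ 2 * s * (‖z‖ + s) := by
      unfold N1
      rw [norm_mul, Complex.norm_real, Real.norm_eq_abs, abs_of_pos (by positivity)]
      apply mul_le_mul_of_nonneg_left _ (by positivity)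
      have := norm_sub_le z (s : ℂ)
      rwa [Complex.norm_real, Real.norm_eq_abs, abs_of_pos hs] at this
    have h3 : ‖M1 s z‖ ≤ ‖z‖ * (‖z‖ + s) := by
      unfold M1
      rw [norm_mul]
      apply mul_le_mul_of_nonneg_left _ (by positivity)
      have := norm_add_le z (s : ℂ)
      rwa [Complex.norm_real, Real.norm_eq_abs, abs_of_pos hs] at this
    have hc1 : 0 < c - 1 := by linarith
    have hB0 : 0 < B := by rw [hB]; positivity
    rw [hB, div_lt_iff₀ hc1] at hcon
    have h4 : c * (‖z‖ - a) ^ 2 ≤ kap ^ 2 * s * (‖z‖ + s) + ‖z‖ * (‖z‖ + s) := by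
      have := mul_le_mul_of_nonneg_left h1 (by linarith : (0 : ℝ) ≤ c)
      linarith
    have hz0 : 0 < ‖z‖ := lt_of_lt_of_le hB0 (by
      rw [hB, div_le_iff₀ hc1]; exact hcon.le)
    have h5 : (2 * c * a + kap ^ 2 * s + s) * ‖z‖ < ‖z‖ * (c - 1) * ‖z‖ :=
      mul_lt_mul_of_pos_right hcon hz0
    have h6 : kap ^ 2 * s ^ 2 ≤ c * a ^ 2 := by
      rw [hadef]
      have : 0 ≤ (c - 1) * (kap * s) ^ 2 := by positivity
      nlinarith
    nlinarith

lemma datas1 {a : ℝ} (ha : 0 < a) : Data univ Ns1 (Ms1 a) (fun _ => -1) (a : ℂ) 1 := by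
  have hfac : ∀ z, Ms1 a z - Ns1 z = (z - (a : ℂ)) ^ 1 * (-1) := by
    intro z; unfold Ms1 Ns1; ring
  refine ⟨isOpen_univ, by norm_num, ?_, ?_, ?_, hfac, fun _ _ => by norm_num, ?_, ?_⟩
  · unfold Ns1; fun_prop
  · unfold Ms1; fun_prop
  · fun_prop
  · rw [doms1_eq ha, Complex.mem_slitPlane_iff]
    left
    exact ha
  · intro c hc
    set B := (c + 1) * a / (c - 1) with hB
    refine ⟨closedBall 0 B, isCompact_closedBall _ _, subset_univ _, ?_⟩
    intro z _ hz
    rw [mem_closedBall_zero_iff, hB, le_div_iff₀ (by linarith)]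
    rw [hfac z, pow_one, norm_mul, norm_neg, norm_one, mul_one] at hz
    have h1 := norm_sub_norm_le z (a : ℂ)
    unfold Ns1 Ms1 at hz
    rw [Complex.norm_real, Real.norm_eq_abs, abs_of_pos ha] at h1 hz
    have h2 := mul_le_mul_of_nonneg_left h1 (by linarith : (0 : ℝ) ≤ c)
    linarith

end Pool.Agent.H4.GS
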