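import Mathlib
import Pool.Agent.H4.GS.Plane

set_option autoImplicit false

open Set Filter Topology Metric InnerProductSpace MeasureTheory

namespace Pool.Agent.H4.GS

lemma im_polar (r θ : ℝ) : ((r : ℂ) * Complex.exp ((θ : ℂ) * Complex.I)).im = r * Real.sin θ := by
  rw [Complex.exp_mul_I]
  simp only [Complex.mul_im, Complex.ofReal_re, Complex.add_im, Complex.add_re,
    Complex.ofReal_im, zero_mul, add_zero, ← Complex.ofReal_cos, ← Complex.ofReal_sin,
    Complex.I_im, Complex.I_re, mul_one, zero_add, mul_zero]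

lemma re_polar (r θ : ℝ) : ((r : ℂ) * Complex.exp ((θ : ℂ) * Complex.I)).re = r * Real.cos θ := by
  rw [Complex.exp_mul_I]
  simp only [Complex.mul_re, Complex.ofReal_re, Complex.add_im, Complex.add_re,
    Complex.ofReal_im, zero_mul, add_zero, sub_zero, ← Complex.ofReal_cos, ← Complex.ofReal_sin,
    Complex.I_im, Complex.I_re, mul_one, mul_zero]

/-- points of the circle `|z| = r`, `s < r`, other than `-r`, avoid `(-∞,-s] ∪ [0,s]` -/
lemma circle_avoid {s r θ : ℝ} (hs : 0 < s) (hr : s < r) (hθ : -1 < Real.cos θ) :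
    ¬ (((r : ℂ) * Complex.exp ((θ : ℂ) * Complex.I)).im = 0 ∧
      (((r : ℂ) * Complex.exp ((θ : ℂ) * Complex.I)).re ≤ -s ∨
        (0 ≤ ((r : ℂ) * Complex.exp ((θ : ℂ) * Complex.I)).re ∧
          ((r : ℂ) * Complex.exp ((θ : ℂ) * Complex.I)).re ≤ s))) := by
  rw [im_polar, re_polar]
  rintro ⟨h1, h2⟩
  have hr0 : 0 < r := by linarith
  have h3 : Real.sin θ = 0 := (mul_eq_zero.1 h1).resolve_left hr0.ne'
  have h4 := Real.sin_sq_add_cos_sq θ
  rw [h3] at h4
  have h5 : (Real.cos θ - 1) * (Real.cos θ + 1) = 0 := by nlinarith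
  have h6 : Real.cos θ = 1 := by
    rcases mul_eq_zero.1 h5 with h | h
    · linarith
    · linarith
  rw [h6, mul_one] at h2
  rcases h2 with h2 | ⟨-, h2⟩ <;> linarith

noncomputable def G1 (s r : ℝ) (X : ℝ) : ℝ :=
  kap ^ 2 * s * √((r + s) ^ 2 + (-(2 * r * s)) * X) + r * √((r - s) ^ 2 + (2 * r * s) * X) -
    ((r + kap * s) ^ 2 - 2 * r * (kap * s) * X)

noncomputable def w1 (a r : ℝ) (X : ℝ) : ℝ := (r + a) ^ 2 - 2 * r * a * X

lemma G1_zero {s r : ℝ} (hs : 0 < s) (hr : s < r) : G1 s r 0 = 0 := by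
  unfold G1
  rw [mul_zero, mul_zero, mul_zero, add_zero, add_zero, sub_zero, Real.sqrt_sq (by linarith),
    Real.sqrt_sq (by linarith)]
  have := kap_sq
  linear_combination (s * r) * this

lemma G1_deriv {s r : ℝ} (hs : 0 < s) (hr : s < r) : HasDerivAt (G1 s r)
    (kap ^ 2 * s * (-(2 * r * s) / (2 * (r + s))) + r * (2 * r * s / (2 * (r - s))) +
      2 * r * (kap * s)) 0 := by
  have h1 := (hasDerivAt_sqrt_lin (show 0 < r + s by linarith) (-(2 * r * s))).const_mul
    (kap ^ 2 * s)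
  have h2 := (hasDerivAt_sqrt_lin (show 0 < r - s by linarith) (2 * r * s)).const_mul r
  have h3 : HasDerivAt (fun X : ℝ => (r + kap * s) ^ 2 - 2 * r * (kap * s) * X)
      (-(2 * r * (kap * s))) 0 := by
    have := ((hasDerivAt_id (0 : ℝ)).const_mul (2 * r * (kap * s))).const_sub ((r + kap * s) ^ 2)
    simpa using this
  have h4 := (h1.add h2).sub h3
  rw [sub_neg_eq_add] at h4
  exact h4

theorem plane_failure {s : ℝ} (hs : 0 < s) :
    ∀ g gs : ℂ → ℝ, IsGreen (dom univ (N1 s) (M1 s)) ((kap * s : ℝ) : ℂ) g →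
      IsGreen (dom univ Ns1 (Ms1 (kap * s))) ((kap * s : ℝ) : ℂ) gs →
      ∃ lam : ℝ, 0 < lam ∧
        ¬ circSymm (levelSet (dom univ (N1 s) (M1 s)) ((kap * s : ℝ) : ℂ) g lam) ⊆
          levelSet (dom univ Ns1 (Ms1 (kap * s))) ((kap * s : ℝ) : ℂ) gs lam := by
  have hk := kap_pos
  have hk1 := kap_gt
  have hk2 := kap_lt
  have hksq := kap_sq
  have ha : 0 < kap * s := by positivity
  set r : ℝ := 11 * s / 10 with hrdef
  have hr0 : 0 < r := by rw [hrdef]; positivity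
  have hr : s < r := by rw [hrdef]; linarith
  refine failure (data1 hs) (datas1 ha) hr0 (fun _ => mem_univ _) (G := G1 s r)
    (w := w1 (kap * s) r) (β := 2 * 1 * (2 * r * (kap * s))) (c₀ := 1) (c₁ := 2 * r * (kap * s))
    (c₂ := 1) ?_ (G1_zero hs hr) (G1_deriv hs hr) (by positivity) ?_ ?_ ?_ ?_ (by positivity)
    rfl ?_ ?_ ?_ one_pos ?_ ?_
  · unfold G1; fun_prop
  · -- the slope
    have h1 : r - s = s / 10 := by rw [hrdef]; ring
    have h2 : r + s = 21 * s / 10 := by rw [hrdef]; ring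
    have h3 : kap ^ 2 * s * (-(2 * r * s) / (2 * (r + s))) = -(kap ^ 2 * s ^ 2 * (11 / 21)) := by
      rw [h2, hrdef]; field_simp
    have h4 : r * (2 * r * s / (2 * (r - s))) = s ^ 2 * (121 / 10) := by
      rw [h1, hrdef]; field_simp; ring
    rw [h3, h4, hrdef]
    have h5 : 0 < s ^ 2 := by positivity
    have h6 : kap ^ 2 * (11 / 21) + 2 * (11 / 10) * kap < 121 / 10 := by
      rw [hksq]; linarith
    nlinarith
  · unfold w1; fun_prop
  · unfold w1; simp only [mul_zero, sub_zero]; positivity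
  · rintro X ⟨hX, -⟩
    unfold w1
    have : 0 ≤ 2 * r * (kap * s) * X := by positivity
    linarith
  · intro θ hθ
    rw [dom1_eq hs]
    exact circle_avoid hs hr hθ
  · intro θ
    rw [(data1 hs).fac, mul_one, norm_pow, norm_sub_sq_polar]
    unfold w1; ring
  · intro θ
    unfold N1 M1 G1 w1
    rw [norm_mul, norm_mul, Complex.norm_real, Real.norm_eq_abs, abs_of_pos (by positivity),
      norm_sub_polar, norm_add_polar, norm_polar hr0]
    rw [show (r + s) ^ 2 - 2 * r * s * (1 + Real.cos θ) =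
      (r + s) ^ 2 + -(2 * r * s) * (1 + Real.cos θ) by ring]
    ring
  · intro θ
    rw [(datas1 ha).fac, pow_one, norm_mul, norm_neg, norm_one, mul_one, norm_sub_sq_polar]
    unfold w1; ring
  · intro θ
    unfold Ns1 Ms1 w1
    rw [norm_polar hr0, Complex.norm_real, Real.norm_eq_abs, abs_of_pos ha]
    ring

/-! ### Topology and symmetrisation -/

lemma slit_desc : Complex.slitPlane = {z : ℂ | ¬ (z.im = 0 ∧ z.re ≤ 0)} := by
  ext z
  rw [Complex.mem_slitPlane_iff, mem_ofPred_eq]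
  constructor
  · rintro (h | h) ⟨h1, h2⟩
    · linarith
    · exact h h1
  · intro h
    by_cases h1 : z.im = 0
    · left
      by_contra h2
      exact h ⟨h1, by linarith⟩
    · exact Or.inr h1

lemma symm1 {s : ℝ} (hs : 0 < s) :
    circSymm {z : ℂ | ¬ (z.im = 0 ∧ (z.re ≤ -s ∨ (0 ≤ z.re ∧ z.re ≤ s)))} =
      {z | ¬ (z.im = 0 ∧ z.re ≤ 0)} := by
  rw [symm_eq (I := Ioi (0 : ℝ))]
  · rw [← slit_desc]
    ext z
    simp only [mem_Ioi, norm_pos_iff, mem_ofPred_eq, and_iff_right_iff_imp]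
    intro h
    exact Complex.slitPlane_ne_zero h
  · intro z _ hz
    exact norm_pos_iff.2 hz
  · simp [hs.le]
  · intro z hz _
    simp [hz]
  · intro r hr hr0
    rcases le_total r s with h | h
    · left; simp [hr0.le, h]
    · right; simp [h]

lemma conn_aux {s : ℝ} (V : Set ℂ) (hV : Convex ℝ V) {x y : ℝ} (hx : s < x) (hxV : (x : ℂ) ∈ V)
    (hyV : (⟨-s / 2, y⟩ : ℂ) ∈ V) (hy : y ≠ 0) (hs : 0 < s) :
    IsConnected {z : ℂ | z ∈ V ∧ ¬ (z.im = 0 ∧ (z.re ≤ -s ∨ (0 ≤ z.re ∧ z.re ≤ s)))} := by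
  have hset : {z : ℂ | z ∈ V ∧ ¬ (z.im = 0 ∧ (z.re ≤ -s ∨ (0 ≤ z.re ∧ z.re ≤ s)))} =
      (V ∩ {z | z - s ∈ Complex.slitPlane}) ∪ (V ∩ {z | -s < z.re ∧ z.re < 0}) := by
    ext z
    simp only [mem_ofPred_eq, mem_union, mem_inter_iff, Complex.mem_slitPlane_iff,
      Complex.sub_re, Complex.sub_im, Complex.ofReal_re, Complex.ofReal_im, sub_zero]
    constructor
    · rintro ⟨hzV, h⟩
      by_cases h1 : z.im = 0
      · rcases lt_or_ge s z.re with h2 | h2
        · left; exact ⟨hzV, Or.inl (by linarith)⟩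
        · right
          refine ⟨hzV, ?_, ?_⟩
          · by_contra h3
            exact h ⟨h1, Or.inl (by linarith)⟩
          · by_contra h3
            exact h ⟨h1, Or.inr ⟨by linarith, h2⟩⟩
      · left; exact ⟨hzV, Or.inr h1⟩
    · rintro (⟨hzV, h⟩ | ⟨hzV, h1, h2⟩)
      · refine ⟨hzV, ?_⟩
        rintro ⟨h1, h2⟩
        rcases h with h | h
        · rcases h2 with h2 | ⟨-, h2⟩ <;> linarith
        · exact h h1
      · refine ⟨hzV, ?_⟩
        rintro ⟨-, h3 | ⟨h3, -⟩⟩ <;> linarith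
  rw [hset]
  have h1 : StarConvex ℝ (x : ℂ) (V ∩ {z | z - s ∈ Complex.slitPlane}) := by
    apply (hV.starConvex hxV).inter
    have h2 : StarConvex ℝ ((x - s : ℝ) : ℂ) Complex.slitPlane := by
      apply Complex.starConvex_ofReal_slitPlane
      linarith
    intro z hz c d hc hd hcd
    have h3 := h2 hz hc hd hcd
    simp only [mem_ofPred_eq]
    convert h3 using 1
    have hcd' : (c : ℂ) + (d : ℂ) = 1 := by rw [← Complex.ofReal_add, hcd, Complex.ofReal_one]
    simp only [Complex.real_smul]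
    push_cast
    linear_combination ((s : ℂ)) * hcd'
  have hne1 : (V ∩ {z : ℂ | z - s ∈ Complex.slitPlane}).Nonempty := by
    refine ⟨x, hxV, ?_⟩
    simp only [mem_ofPred_eq, Complex.mem_slitPlane_iff]
    left
    simp only [Complex.sub_re, Complex.ofReal_re]
    linarith
  have hc1 : IsConnected (V ∩ {z : ℂ | z - s ∈ Complex.slitPlane}) := by
    have hxm : (x : ℂ) ∈ V ∩ {z : ℂ | z - s ∈ Complex.slitPlane} := by
      refine ⟨hxV, ?_⟩
      simp only [mem_ofPred_eq, Complex.mem_slitPlane_iff]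
      left
      simp only [Complex.sub_re, Complex.ofReal_re]
      linarith
    exact (h1.isPathConnected hxm).isConnected
  have hconv : Convex ℝ (V ∩ {z : ℂ | -s < z.re ∧ z.re < 0}) := by
    apply hV.inter
    have h2 : Convex ℝ {z : ℂ | -s < z.re} := convex_halfSpace_re_gt _
    have h3 : Convex ℝ {z : ℂ | z.re < 0} := convex_halfSpace_re_lt _
    exact h2.inter h3
  have hm : (⟨-s / 2, y⟩ : ℂ) ∈ V ∩ {z : ℂ | -s < z.re ∧ z.re < 0} := by
    refine ⟨hyV, ?_, ?_⟩
    · show -s < -s / 2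
      linarith
    · show -s / 2 < 0
      linarith
  have hc2 : IsConnected (V ∩ {z : ℂ | -s < z.re ∧ z.re < 0}) :=
    ⟨⟨_, hm⟩, hconv.isPreconnected⟩
  refine IsConnected.union ⟨⟨-s / 2, y⟩, ⟨hyV, ?_⟩, hm⟩ hc1 hc2
  simp only [mem_ofPred_eq, Complex.mem_slitPlane_iff]
  right
  simp only [Complex.sub_im, Complex.ofReal_im, sub_zero]
  exact hy

lemma conn1 {s : ℝ} (hs : 0 < s) :
    IsConnected {z : ℂ | ¬ (z.im = 0 ∧ (z.re ≤ -s ∨ (0 ≤ z.re ∧ z.re ≤ s)))} := by
  have := conn_aux (s := s) univ convex_univ (x := 2 * s) (y := 1) (by linarith) (mem_univ _)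
    (mem_univ _) one_ne_zero hs
  simpa using this

end Pool.Agent.H4.GS
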