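import Mathlib
import Pool.Agent.H4.GS.Plane2

set_option autoImplicit false

open Set Filter Topology Metric InnerProductSpace MeasureTheory

namespace Pool.Agent.H4.GS

/-- the parameters of the doubly connected domain `{|z| < 1} \ ((-1,-ρ] ∪ [0,ρ])` -/
structure Par (a ρ p q : ℝ) : Prop where
  a0 : 0 < a
  a1 : a < 1
  ρ0 : 0 < ρ
  ρa : ρ < a
  p0 : 0 < p
  q0 : 0 < q
  F0 : p * ρ = a ^ 2
  F1 : q * ρ = p * (1 + ρ) ^ 2 - 2 * a * (1 + a ^ 2)
  F2 : (q + 2 * p) * (1 + ρ ^ 2) = (1 + a ^ 2) ^ 2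

lemma par_exists {a : ℝ} (ha0 : 0 < a) (ha1 : a < 1) : ∃ ρ p q : ℝ, Par a ρ p q := by
  set A : ℝ := a + 1 / a with hA
  have haA : a * A = a ^ 2 + 1 := by rw [hA]; field_simp
  have hA2 : 2 < A := by
    have h1 : 0 < (1 - a) ^ 2 / a := by
      have : 0 < 1 - a := by linarith
      positivity
    have h2 : (1 - a) ^ 2 / a = A - 2 := by rw [hA]; field_simp; ring
    linarith
  set B : ℝ := √((A - 2) ^ 2 + A ^ 2) with hB
  have hB2 : B ^ 2 = (A - 2) ^ 2 + A ^ 2 := Real.sq_sqrt (by positivity)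
  have hBA : A < B := by
    rw [hB]
    apply Real.lt_sqrt_of_sq_lt
    have : 0 < (A - 2) ^ 2 := by
      have : 0 < A - 2 := by linarith
      positivity
    linarith
  set X₀ : ℝ := A - 2 + B with hX
  have hX0 : A < X₀ := by rw [hX]; linarith
  have hXq : X₀ * (X₀ + 4 - 2 * A) = A ^ 2 := by
    rw [hX]; nlinarith
  set R : ℝ := √(X₀ ^ 2 - 4) with hR
  have hR2 : R ^ 2 = X₀ ^ 2 - 4 := Real.sq_sqrt (by nlinarith)
  have hR0 : 0 ≤ R := Real.sqrt_nonneg _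
  have hRX : R < X₀ := by nlinarith
  have hRX2 : X₀ - 2 < R := by
    rw [hR]
    apply Real.lt_sqrt_of_sq_lt
    nlinarith
  set ρ : ℝ := (X₀ - R) / 2 with hρ
  have hρ0 : 0 < ρ := by rw [hρ]; linarith
  have hρ1 : ρ < 1 := by rw [hρ]; linarith
  have hρX : ρ * X₀ = ρ ^ 2 + 1 := by
    rw [hρ]; nlinarith
  have hρa : ρ < a := by
    by_contra hcon
    push Not at hcon
    -- `ρ + 1/ρ ≤ a + 1/a`
    have h1 : (ρ - a) * (1 - a * ρ) ≥ 0 := by
      apply mul_nonneg (by linarith)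
      nlinarith
    have h2 : a * ρ * (A - X₀) = (ρ - a) * (1 - a * ρ) := by
      linear_combination ρ * haA - a * hρX
    have h3 : a * ρ * (A - X₀) < 0 := by
      have : 0 < a * ρ * (X₀ - A) := mul_pos (mul_pos ha0 hρ0) (by linarith)
      linarith
    linarith
  set p : ℝ := a ^ 2 / ρ with hp
  have hp0 : 0 < p := by rw [hp]; positivity
  have hpρ : p * ρ = a ^ 2 := by rw [hp]; field_simp
  set q : ℝ := p * (X₀ + 2 - 2 * A) with hq
  have hq0 : 0 < q := by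
    rw [hq]
    apply mul_pos hp0
    rw [hX]; linarith
  refine ⟨ρ, p, q, ha0, ha1, hρ0, hρa, hp0, hq0, hpρ, ?_, ?_⟩
  · rw [hq]
    linear_combination (p * 1) * hρX - (2 * a) * haA + (-2 * A) * hpρ
  · rw [hq]
    linear_combination (-(p * (X₀ + 4 - 2 * A))) * hρX + (X₀ * (X₀ + 4 - 2 * A)) * hpρ +
      (a ^ 2) * hXq + (a * A + a ^ 2 + 1) * haA

variable {a ρ p q : ℝ}

noncomputable def N2 (ρ p : ℝ) (z : ℂ) : ℂ := (p : ℂ) * ((1 - z) ^ 2 * ((z - ρ) * (1 + ((-ρ : ℝ) : ℂ) * z)))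
noncomputable def M2 (ρ q : ℝ) (z : ℂ) : ℂ := (q : ℂ) * (z * ((z + ρ) * (1 + (ρ : ℂ) * z)))
noncomputable def Ns2 (a : ℝ) (z : ℂ) : ℂ := (a : ℂ) * (1 - z) ^ 2
noncomputable def Ms2 (a : ℝ) (z : ℂ) : ℂ := (((1 - a) ^ 2 : ℝ) : ℂ) * z
noncomputable def E2 (a : ℝ) (z : ℂ) : ℂ := (1 + ((-a : ℝ) : ℂ) * z) ^ 2
noncomputable def Es2 (a : ℝ) (z : ℂ) : ℂ := 1 + ((-a : ℝ) : ℂ) * z

lemma Par.fac (h : Par a ρ p q) (z : ℂ) : M2 ρ q z - N2 ρ p z = (z - (a : ℂ)) ^ 2 * E2 a z := by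
  have h0 : (p : ℂ) * ρ = (a : ℂ) ^ 2 := by exact_mod_cast congrArg (fun x : ℝ => (x : ℂ)) h.F0
  have h1 : (q : ℂ) * ρ = p * (1 + ρ) ^ 2 - 2 * a * (1 + a ^ 2) := by
    exact_mod_cast congrArg (fun x : ℝ => (x : ℂ)) h.F1
  have h2 : ((q : ℂ) + 2 * p) * (1 + ρ ^ 2) = (1 + a ^ 2) ^ 2 := by
    exact_mod_cast congrArg (fun x : ℝ => (x : ℂ)) h.F2
  unfold M2 N2 E2
  push_cast
  linear_combination ((z ^ 2 + 1) ^ 2) * h0 + ((z ^ 2 + 1) * z) * h1 + z ^ 2 * h2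

lemma fac_s (a : ℝ) (z : ℂ) : Ms2 a z - Ns2 a z = (z - (a : ℂ)) ^ 1 * Es2 a z := by
  unfold Ms2 Ns2 Es2
  push_cast
  ring

lemma one_sub_ne {a : ℝ} (ha0 : 0 < a) (ha1 : a < 1) {z : ℂ} (hz : ‖z‖ ≤ 1) :
    1 + ((-a : ℝ) : ℂ) * z ≠ 0 := by
  intro h
  have h1 : (a : ℂ) * z = 1 := by push_cast at h; linear_combination -h
  have h2 := congrArg norm h1
  rw [norm_mul, Complex.norm_real, Real.norm_eq_abs, abs_of_pos ha0, norm_one] at h2
  nlinarith [norm_nonneg z]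

/-- real quadratics with positive discriminant have no nonreal roots -/
lemma quad_lemma {J : ℂ} (hJ : J.im ≠ 0) {α β γ : ℝ} (hd : 0 < β ^ 2 - 4 * α * γ)
    (h : (α : ℂ) * J ^ 2 - (β : ℂ) * J + (γ : ℂ) = 0) : False := by
  have h1 := congrArg Complex.re h
  have h2 := congrArg Complex.im h
  simp only [pow_two, Complex.add_re, Complex.sub_re, Complex.mul_re, Complex.mul_im,
    Complex.add_im, Complex.sub_im, Complex.ofReal_re, Complex.ofReal_im, Complex.zero_re,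
    Complex.zero_im, zero_mul, sub_zero, add_zero] at h1 h2
  have h3 : J.im * (2 * α * J.re - β) = 0 := by linarith
  have h4 : 2 * α * J.re - β = 0 := (mul_eq_zero.1 h3).resolve_left hJ
  have h5 : β = 2 * α * J.re := by linarith
  have h6 : γ = α * (J.re ^ 2 + J.im ^ 2) := by rw [h5] at h1; linarith
  rw [h5, h6] at hd
  have : 0 ≤ (α * J.im) ^ 2 := sq_nonneg _
  nlinarith

lemma J_im {z : ℂ} (hz : z.im ≠ 0) (hz1 : ‖z‖ < 1) : (z + z⁻¹).im ≠ 0 := by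
  have hz0 : z ≠ 0 := by rintro rfl; simp at hz
  have hn : 0 < Complex.normSq z := Complex.normSq_pos.2 hz0
  have hn1 : Complex.normSq z < 1 := by
    rw [Complex.normSq_eq_norm_sq]
    nlinarith [norm_nonneg z]
  rw [Complex.add_im, Complex.inv_im]
  intro h
  have h1 : z.im * (Complex.normSq z - 1) = 0 := by
    field_simp at h
    linarith
  rcases mul_eq_zero.1 h1 with h2 | h2
  · exact hz h2
  · linarith

lemma unit_circle {z : ℂ} (hz : ‖z‖ = 1) : z ^ 2 + 1 = ((2 * z.re : ℝ) : ℂ) * z := by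
  have h1 : z.re * z.re + z.im * z.im = 1 := by
    rw [← Complex.normSq_apply, Complex.normSq_eq_norm_sq, hz, one_pow]
  apply Complex.ext
  · simp only [pow_two, Complex.add_re, Complex.mul_re, Complex.one_re, Complex.ofReal_re,
      Complex.ofReal_im, zero_mul, sub_zero]
    linarith
  · simp only [pow_two, Complex.add_im, Complex.mul_im, Complex.one_im, Complex.ofReal_re,
      Complex.ofReal_im, zero_mul, add_zero]
    ring

lemma re_bound {z : ℂ} (hz : ‖z‖ = 1) : -1 ≤ z.re ∧ z.re ≤ 1 := by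
  have := Complex.abs_re_le_norm z
  rw [hz] at this
  exact abs_le.1 this

/-- equality on the unit circle -/
lemma Par.circle (h : Par a ρ p q) {z : ℂ} (hz : ‖z‖ = 1) :
    ‖M2 ρ q z - N2 ρ p z‖ = ‖N2 ρ p z‖ + ‖M2 ρ q z‖ := by
  have h1 := unit_circle hz
  obtain ⟨hr1, hr2⟩ := re_bound hz
  set J : ℝ := 2 * z.re with hJ
  have hρ := h.ρ0
  have hρ1 : ρ < 1 := lt_trans h.ρa h.a1
  have e1 : N2 ρ p z = ((p * ((J - 2) * (1 + ρ ^ 2 - ρ * J)) : ℝ) : ℂ) * z ^ 2 := by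
    have h2 : (1 - z) ^ 2 = ((J : ℂ) - 2) * z := by linear_combination h1
    have h3 : (z - ρ) * (1 + ((-ρ : ℝ) : ℂ) * z) = (1 + (ρ : ℂ) ^ 2 - ρ * J) * z := by
      push_cast
      linear_combination (-(ρ : ℂ)) * h1
    unfold N2
    rw [h2, h3]; push_cast; ring
  have e2 : M2 ρ q z = ((q * (1 + ρ ^ 2 + ρ * J) : ℝ) : ℂ) * z ^ 2 := by
    have h3 : (z + ρ) * (1 + (ρ : ℂ) * z) = (1 + (ρ : ℂ) ^ 2 + ρ * J) * z := by
      linear_combination (ρ : ℂ) * h1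
    unfold M2
    rw [h3]; push_cast; ring
  have k1 : 0 ≤ 1 + ρ ^ 2 - ρ * J := by nlinarith
  have k2 : 0 ≤ 1 + ρ ^ 2 + ρ * J := by nlinarith
  have k3 : J - 2 ≤ 0 := by rw [hJ]; linarith
  have k4 : p * ((J - 2) * (1 + ρ ^ 2 - ρ * J)) ≤ 0 :=
    mul_nonpos_of_nonneg_of_nonpos h.p0.le (mul_nonpos_of_nonpos_of_nonneg k3 k1)
  have k5 : 0 ≤ q * (1 + ρ ^ 2 + ρ * J) := mul_nonneg h.q0.le k2
  rw [e1, e2, ← sub_mul, ← Complex.ofReal_sub, norm_mul, norm_mul, norm_mul, Complex.norm_real,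
    Complex.norm_real, Complex.norm_real, norm_pow, hz, one_pow, mul_one, mul_one, mul_one,
    Real.norm_eq_abs, Real.norm_eq_abs, Real.norm_eq_abs, abs_of_nonneg k5, abs_of_nonpos k4,
    abs_of_nonneg (by linarith)]
  ring

lemma circle_s {a : ℝ} (ha0 : 0 < a) {z : ℂ} (hz : ‖z‖ = 1) :
    ‖Ms2 a z - Ns2 a z‖ = ‖Ns2 a z‖ + ‖Ms2 a z‖ := by
  have h1 := unit_circle hz
  obtain ⟨hr1, hr2⟩ := re_bound hz
  set J : ℝ := 2 * z.re with hJ
  have e1 : Ns2 a z = ((a * (J - 2) : ℝ) : ℂ) * z := by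
    have h2 : (1 - z) ^ 2 = ((J : ℂ) - 2) * z := by linear_combination h1
    unfold Ns2
    rw [h2]; push_cast; ring
  have k3 : J - 2 ≤ 0 := by rw [hJ]; linarith
  have k4 : a * (J - 2) ≤ 0 := mul_nonpos_of_nonneg_of_nonpos ha0.le k3
  have k5 : 0 ≤ (1 - a) ^ 2 := sq_nonneg _
  unfold Ms2
  rw [e1, ← sub_mul, ← Complex.ofReal_sub, norm_mul, norm_mul, norm_mul, Complex.norm_real,
    Complex.norm_real, Complex.norm_real, hz, mul_one, mul_one, mul_one,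
    Real.norm_eq_abs, Real.norm_eq_abs, Real.norm_eq_abs, abs_of_nonneg k5, abs_of_nonpos k4,
    abs_of_nonneg (by linarith)]
  ring

lemma Par.dom_eq (h : Par a ρ p q) : dom {z | ‖z‖ < 1} (N2 ρ p) (M2 ρ q) =
    {z | ‖z‖ < 1 ∧ ¬ (z.im = 0 ∧ (z.re ≤ -ρ ∨ (0 ≤ z.re ∧ z.re ≤ ρ)))} := by
  have hρ := h.ρ0
  have hρ1 : ρ < 1 := lt_trans h.ρa h.a1
  ext z
  simp only [dom, mem_ofPred_eq]
  refine and_congr_right fun hz1 => ?_
  by_cases hz : z.im = 0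
  · simp only [hz, true_and]
    rw [← cubic_pos hρ, re_eq hz]
    simp only [Complex.ofReal_re]
    rw [re_eq hz, Complex.norm_real, Real.norm_eq_abs] at hz1
    obtain ⟨hx1, hx2⟩ := abs_lt.1 hz1
    set x := z.re
    have e1 : N2 ρ p (x : ℂ) = ((p * ((1 - x) ^ 2 * ((x - ρ) * (1 - ρ * x))) : ℝ) : ℂ) := by
      unfold N2; push_cast; ring
    have e2 : M2 ρ q (x : ℂ) = ((q * (x * ((x + ρ) * (1 + ρ * x))) : ℝ) : ℂ) := by
      unfold M2; push_cast; ring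
    rw [e1, e2, real_iff]
    have h1 : 0 < 1 - ρ * x := by nlinarith
    have h2 : 0 < 1 + ρ * x := by nlinarith
    have h3 : 0 < (1 - x) ^ 2 := by
      have : 0 < 1 - x := by linarith
      positivity
    have h4 : 0 < p * q * (1 - x) ^ 2 * (1 - ρ * x) * (1 + ρ * x) := by
      have := h.p0; have := h.q0; positivity
    rw [show p * ((1 - x) ^ 2 * ((x - ρ) * (1 - ρ * x))) * (q * (x * ((x + ρ) * (1 + ρ * x)))) =
      (p * q * (1 - x) ^ 2 * (1 - ρ * x) * (1 + ρ * x)) * ((x - ρ) * (x * (x + ρ))) by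
      ring, mul_pos_iff_of_pos_left h4]
  · simp only [hz, false_and, not_false_eq_true, iff_true]
    have hz0 : z ≠ 0 := by rintro rfl; simp at hz
    have hzs : z + ρ ≠ 0 := by
      intro h
      have := congrArg Complex.im h
      simp at this
      exact hz this
    have hzt : 1 + (ρ : ℂ) * z ≠ 0 := by
      intro h
      have := congrArg Complex.im h
      simp at this
      rcases this with h1 | h1
      · exact hρ.ne' h1
      · exact hz h1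
    have hM : M2 ρ q z ≠ 0 := mul_ne_zero (Complex.ofReal_ne_zero.2 h.q0.ne')
      (mul_ne_zero hz0 (mul_ne_zero hzs hzt))
    apply lt_of_not_ray hM
    intro t ht h5
    set J : ℂ := z + z⁻¹ with hJ
    have hJz : z ^ 2 + 1 = J * z := by rw [hJ]; field_simp
    -- divide by `z²`
    have h6 : (((p * ρ : ℝ) : ℂ) * J ^ 2 - ((p * (1 + ρ) ^ 2 + t * q * ρ : ℝ) : ℂ) * J +
        (((2 * p - t * q) * (1 + ρ ^ 2) : ℝ) : ℂ)) * z ^ 2 = 0 := by
      unfold N2 M2 at h5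
      push_cast at h5 ⊢
      have h7 : J * z * (J * z) = (z ^ 2 + 1) * (z ^ 2 + 1) := by rw [hJz]
      linear_combination h5 + ((p : ℂ) * ρ) * h7 +
        ((p * (1 + ρ) ^ 2 + t * q * ρ : ℂ) * z) * hJz
    have h7 := (mul_eq_zero.1 h6).resolve_right (pow_ne_zero 2 hz0)
    refine quad_lemma (J_im hz hz1) ?_ h7
    have hp := h.p0
    have hq := h.q0
    have e : (p * (1 + ρ) ^ 2 + t * q * ρ) ^ 2 - 4 * (p * ρ) * ((2 * p - t * q) * (1 + ρ ^ 2)) =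
        p ^ 2 * (1 - ρ) ^ 4 + 2 * p * (t * q * ρ) * (1 + ρ) ^ 2 + (t * q * ρ) ^ 2 +
          4 * (p * ρ) * (t * q) * (1 + ρ ^ 2) := by ring
    rw [e]
    have h8 : 0 < 1 - ρ := by linarith
    positivity

lemma doms2_eq {a : ℝ} (ha0 : 0 < a) (ha1 : a < 1) : dom {z | ‖z‖ < 1} (Ns2 a) (Ms2 a) =
    {z | ‖z‖ < 1 ∧ ¬ (z.im = 0 ∧ z.re ≤ 0)} := by
  have ha2 : 0 < (1 - a) ^ 2 := by
    have : 0 < 1 - a := by linarith
    positivity
  ext z
  simp only [dom, mem_ofPred_eq]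
  refine and_congr_right fun hz1 => ?_
  by_cases hz : z.im = 0
  · simp only [hz, true_and]
    rw [re_eq hz]
    simp only [Complex.ofReal_re]
    rw [re_eq hz, Complex.norm_real, Real.norm_eq_abs] at hz1
    obtain ⟨hx1, hx2⟩ := abs_lt.1 hz1
    set x := z.re
    have e1 : Ns2 a (x : ℂ) = ((a * (1 - x) ^ 2 : ℝ) : ℂ) := by
      unfold Ns2; push_cast; ring
    have e2 : Ms2 a (x : ℂ) = (((1 - a) ^ 2 * x : ℝ) : ℂ) := by
      unfold Ms2; push_cast; ring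
    rw [e1, e2, real_iff]
    have h3 : 0 < (1 - x) ^ 2 := by
      have : 0 < 1 - x := by linarith
      positivity
    rw [show a * (1 - x) ^ 2 * ((1 - a) ^ 2 * x) = (a * (1 - x) ^ 2 * (1 - a) ^ 2) * x by ring,
      mul_pos_iff_of_pos_left (by positivity), not_le]
  · simp only [hz, false_and, not_false_eq_true, iff_true]
    have hz0 : z ≠ 0 := by rintro rfl; simp at hz
    have hM : Ms2 a z ≠ 0 := mul_ne_zero (Complex.ofReal_ne_zero.2 ha2.ne') hz0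
    apply lt_of_not_ray hM
    intro t ht h5
    set J : ℂ := z + z⁻¹ with hJ
    have hJz : z ^ 2 + 1 = J * z := by rw [hJ]; field_simp
    have h6 : ((a : ℂ) * J - ((2 * a - t * (1 - a) ^ 2 : ℝ) : ℂ)) * z = 0 := by
      unfold Ns2 Ms2 at h5
      push_cast at h5 ⊢
      linear_combination -h5 + (-(a : ℂ)) * hJz
    have h7 := (mul_eq_zero.1 h6).resolve_right hz0
    have h8 := congrArg Complex.im h7
    simp only [Complex.sub_im, Complex.mul_im, Complex.ofReal_re, Complex.ofReal_im, zero_mul,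
      add_zero, sub_zero, Complex.zero_im] at h8
    rcases mul_eq_zero.1 h8 with h9 | h9
    · exact ha0.ne' h9
    · exact J_im hz hz1 h9

lemma cpt_of {N M E : ℂ → ℂ} {a : ℂ} {n : ℕ} (ha : ‖a‖ < 1) (hN : Continuous N)
    (hM : Continuous M) (hfac : ∀ z, M z - N z = (z - a) ^ n * E z) (hE : ∀ z, ‖z‖ ≤ 1 → E z ≠ 0)
    (hcirc : ∀ z, ‖z‖ = 1 → ‖M z - N z‖ = ‖N z‖ + ‖M z‖) {c : ℝ} (hc : 1 < c) :
    ∃ K : Set ℂ, IsCompact K ∧ K ⊆ {z | ‖z‖ < 1} ∧
      ∀ z ∈ {z : ℂ | ‖z‖ < 1}, c * ‖M z - N z‖ ≤ ‖N z‖ + ‖M z‖ → z ∈ K := by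
  refine ⟨closedBall 0 1 ∩ {z | c * ‖M z - N z‖ ≤ ‖N z‖ + ‖M z‖}, ?_, ?_, ?_⟩
  · apply (isCompact_closedBall _ _).inter_right
    apply isClosed_le
    · exact continuous_const.mul (hM.sub hN).norm
    · exact hN.norm.add hM.norm
  · rintro z ⟨hz, hz2⟩
    rw [mem_closedBall_zero_iff] at hz
    simp only [mem_ofPred_eq] at hz2 ⊢
    refine lt_of_le_of_ne hz fun hz1 => ?_
    rw [← hcirc z hz1] at hz2
    have hza : z - a ≠ 0 := by
      rw [sub_ne_zero]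
      rintro rfl
      linarith
    have hne : M z - N z ≠ 0 := by
      rw [hfac]
      exact mul_ne_zero (pow_ne_zero _ hza) (hE z hz)
    have : 0 < ‖M z - N z‖ := norm_pos_iff.2 hne
    nlinarith
  · intro z hz hz2
    refine ⟨?_, hz2⟩
    rw [mem_closedBall_zero_iff]
    exact le_of_lt hz

lemma norm_a {a : ℝ} (ha0 : 0 < a) (ha1 : a < 1) : ‖(a : ℂ)‖ < 1 := by
  rw [Complex.norm_real, Real.norm_eq_abs, abs_of_pos ha0]; exact ha1

lemma open_ball : IsOpen {z : ℂ | ‖z‖ < 1} := isOpen_lt continuous_norm continuous_const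

lemma Par.data (h : Par a ρ p q) :
    Data {z | ‖z‖ < 1} (N2 ρ p) (M2 ρ q) (E2 a) (a : ℂ) 2 := by
  refine ⟨open_ball, by norm_num, ?_, ?_, ?_, h.fac,
    fun z hz => pow_ne_zero 2 (one_sub_ne h.a0 h.a1 (le_of_lt hz)), ?_, ?_⟩
  · unfold N2; fun_prop
  · unfold M2; fun_prop
  · unfold E2; fun_prop
  · rw [h.dom_eq]
    refine ⟨norm_a h.a0 h.a1, ?_⟩
    simp only [Complex.ofReal_im, Complex.ofReal_re, true_and]
    have := h.ρa; have := h.ρ0; have := h.a0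
    rintro (h | ⟨-, h⟩) <;> linarith
  · intro c hc
    refine cpt_of (norm_a h.a0 h.a1) ?_ ?_ h.fac
      (fun z hz => pow_ne_zero 2 (one_sub_ne h.a0 h.a1 hz)) (fun z hz => h.circle hz) hc
    · unfold N2; fun_prop
    · unfold M2; fun_prop

lemma datas2 {a : ℝ} (ha0 : 0 < a) (ha1 : a < 1) :
    Data {z | ‖z‖ < 1} (Ns2 a) (Ms2 a) (Es2 a) (a : ℂ) 1 := by
  refine ⟨open_ball, by norm_num, ?_, ?_, ?_, fac_s a,
    fun z hz => one_sub_ne ha0 ha1 (le_of_lt hz), ?_, ?_⟩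
  · unfold Ns2; fun_prop
  · unfold Ms2; fun_prop
  · unfold Es2; fun_prop
  · rw [doms2_eq ha0 ha1]
    refine ⟨norm_a ha0 ha1, ?_⟩
    simp only [Complex.ofReal_im, Complex.ofReal_re, true_and]
    linarith
  · intro c hc
    refine cpt_of (norm_a ha0 ha1) ?_ ?_ (fac_s a)
      (fun z hz => one_sub_ne ha0 ha1 hz) (fun z hz => circle_s ha0 hz) hc
    · unfold Ns2; fun_prop
    · unfold Ms2; fun_prop

end Pool.Agent.H4.GS
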