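import Mathlib
import Pool.Agent.H4.GS.Disc

set_option autoImplicit false

open Set Filter Topology Metric InnerProductSpace MeasureTheory

namespace Pool.Agent.H4.GS

variable {a ρ p q : ℝ}

noncomputable def w2 (a r : ℝ) (X : ℝ) : ℝ :=
  ((r + a) ^ 2 - 2 * r * a * X) * ((1 + a * r) ^ 2 - 2 * a * r * X)

noncomputable def G2 (a ρ p q r : ℝ) (X : ℝ) : ℝ :=
  p * (((1 + r) ^ 2 + (-(2 * r)) * X) * (√((r + ρ) ^ 2 + (-(2 * r * ρ)) * X) *
    √((1 + ρ * r) ^ 2 + (-(2 * ρ * r)) * X))) +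
  q * (r * (√((r - ρ) ^ 2 + (2 * r * ρ) * X) * √((1 - ρ * r) ^ 2 + (2 * ρ * r) * X))) - w2 a r X

lemma lin_deriv (u β : ℝ) : HasDerivAt (fun X : ℝ => u + β * X) β 0 := by
  have := ((hasDerivAt_id (0 : ℝ)).const_mul β).const_add u
  simpa using this

lemma G2_deriv {r : ℝ} (h : Par a ρ p q) (hr : ρ < r) (hr1 : r < 1) :
    HasDerivAt (G2 a ρ p q r)
    (p * (-(2 * r) * ((r + ρ) * (1 + ρ * r)) + (1 + r) ^ 2 *
      (-(2 * r * ρ) / (2 * (r + ρ)) * (1 + ρ * r) +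
        (r + ρ) * (-(2 * ρ * r) / (2 * (1 + ρ * r))))) +
     q * (r * (2 * r * ρ / (2 * (r - ρ)) * (1 - ρ * r) +
        (r - ρ) * (2 * ρ * r / (2 * (1 - ρ * r))))) -
     (-(2 * r * a) * (1 + a * r) ^ 2 + (r + a) ^ 2 * (-(2 * a * r)))) 0 := by
  have hρ := h.ρ0
  have hρ1 : ρ < 1 := lt_trans h.ρa h.a1
  have hρr : ρ * r < 1 := by nlinarith
  have d1 := lin_deriv ((1 + r) ^ 2) (-(2 * r))
  have d2 := hasDerivAt_sqrt_lin (show 0 < r + ρ by linarith) (-(2 * r * ρ))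
  have d3 := hasDerivAt_sqrt_lin (show 0 < 1 + ρ * r by nlinarith) (-(2 * ρ * r))
  have d4 := hasDerivAt_sqrt_lin (show 0 < r - ρ by linarith) (2 * r * ρ)
  have d5 := hasDerivAt_sqrt_lin (show 0 < 1 - ρ * r by linarith) (2 * ρ * r)
  have d6 := lin_deriv ((r + a) ^ 2) (-(2 * r * a))
  have d7 := lin_deriv ((1 + a * r) ^ 2) (-(2 * a * r))
  have s2 : √((r + ρ) ^ 2) = r + ρ := Real.sqrt_sq (by linarith)
  have s3 : √((1 + ρ * r) ^ 2) = 1 + ρ * r := Real.sqrt_sq (by nlinarith)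
  have s4 : √((r - ρ) ^ 2) = r - ρ := Real.sqrt_sq (by linarith)
  have s5 : √((1 - ρ * r) ^ 2) = 1 - ρ * r := Real.sqrt_sq (by linarith)
  have D := (((d1.mul (d2.mul d3)).const_mul p).add (((d4.mul d5).const_mul r).const_mul q)).sub
    (d6.mul d7)
  have hfun : G2 a ρ p q r = (fun X : ℝ => (fun X : ℝ => p * (((1 + r) ^ 2 + (-(2 * r)) * X) *
      (√((r + ρ) ^ 2 + (-(2 * r * ρ)) * X) * √((1 + ρ * r) ^ 2 + (-(2 * ρ * r)) * X)))) X +
      (fun X : ℝ => q * (r * (√((r - ρ) ^ 2 + (2 * r * ρ) * X) *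
        √((1 - ρ * r) ^ 2 + (2 * ρ * r) * X)))) X -
      ((r + a) ^ 2 + (-(2 * r * a)) * X) * ((1 + a * r) ^ 2 + (-(2 * a * r)) * X)) := by
    funext X
    unfold G2 w2
    ring
  rw [hfun]
  refine D.congr_deriv ?_
  simp only [Pi.mul_apply, mul_zero, add_zero]
  rw [s2, s3, s4, s5]

lemma G2_zero {r : ℝ} (h : Par a ρ p q) (hr : ρ < r) (hr1 : r < 1) : G2 a ρ p q r 0 = 0 := by
  have hρ := h.ρ0
  have hρ1 : ρ < 1 := lt_trans h.ρa h.a1
  have hρr : ρ * r < 1 := by nlinarith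
  unfold G2 w2
  simp only [mul_zero, add_zero, sub_zero]
  rw [Real.sqrt_sq (by linarith), Real.sqrt_sq (by nlinarith), Real.sqrt_sq (by linarith),
    Real.sqrt_sq (by linarith)]
  linear_combination ((r ^ 2 + 1) ^ 2) * h.F0 - ((r ^ 2 + 1) * r) * h.F1 + r ^ 2 * h.F2

/-- the slope condition -/
lemma slope {r : ℝ} (h : Par a ρ p q) (hr : ρ < r) (hra : r < a)
    (hδ : (r - ρ) * (24 * p + 5) ≤ q * ρ ^ 3 * (1 - ρ)) :
    2 * 1 * (2 * r * a * ((1 - a) * (1 - r)) ^ 2) <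
    (p * (-(2 * r) * ((r + ρ) * (1 + ρ * r)) + (1 + r) ^ 2 *
      (-(2 * r * ρ) / (2 * (r + ρ)) * (1 + ρ * r) +
        (r + ρ) * (-(2 * ρ * r) / (2 * (1 + ρ * r))))) +
     q * (r * (2 * r * ρ / (2 * (r - ρ)) * (1 - ρ * r) +
        (r - ρ) * (2 * ρ * r / (2 * (1 - ρ * r))))) -
     (-(2 * r * a) * (1 + a * r) ^ 2 + (r + a) ^ 2 * (-(2 * a * r)))) := by
  have hρ := h.ρ0
  have ha0 := h.a0
  have ha1 := h.a1
  have hp := h.p0
  have hq := h.q0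
  have hρ1 : ρ < 1 := lt_trans h.ρa h.a1
  have hr0 : 0 < r := by linarith
  have hr1 : r < 1 := by linarith
  have hρr : ρ * r < 1 := by nlinarith
  have hρr0 : 0 < ρ * r := by positivity
  set δ := r - ρ with hδdef
  have hδ0 : 0 < δ := by linarith
  -- the threshold is at most 4
  have t1 : 2 * 1 * (2 * r * a * ((1 - a) * (1 - r)) ^ 2) ≤ 4 := by
    have h1 : ((1 - a) * (1 - r)) ^ 2 ≤ 1 := by
      have : 0 ≤ (1 - a) * (1 - r) := mul_nonneg (by linarith) (by linarith)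
      have : (1 - a) * (1 - r) ≤ 1 := by nlinarith
      nlinarith
    have h2 : r * a ≤ 1 := by nlinarith
    have h3 : 0 ≤ r * a := by positivity
    have h4 : 0 ≤ ((1 - a) * (1 - r)) ^ 2 := sq_nonneg _
    nlinarith
  -- first bracket
  have b1 : 2 * r * ((r + ρ) * (1 + ρ * r)) ≤ 8 := by
    have h1 : (r + ρ) * (1 + ρ * r) ≤ 2 * 2 := by gcongr <;> linarith
    have h2 : 0 ≤ (r + ρ) * (1 + ρ * r) := by positivity
    nlinarith
  have b2 : (1 + r) ^ 2 * ((2 * r * ρ) / (2 * (r + ρ)) * (1 + ρ * r)) ≤ 8 := by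
    have h1 : (2 * r * ρ) / (2 * (r + ρ)) ≤ 1 := by
      rw [div_le_one (by positivity)]
      nlinarith
    have h2 : (1 + r) ^ 2 ≤ 4 := by nlinarith
    have h3 : 0 ≤ (2 * r * ρ) / (2 * (r + ρ)) := by positivity
    calc (1 + r) ^ 2 * ((2 * r * ρ) / (2 * (r + ρ)) * (1 + ρ * r)) ≤ 4 * (1 * 2) := by
          gcongr
          linarith
      _ = 8 := by norm_num
  have b3 : (1 + r) ^ 2 * ((r + ρ) * ((2 * ρ * r) / (2 * (1 + ρ * r)))) ≤ 8 := by
    have h1 : (2 * ρ * r) / (2 * (1 + ρ * r)) ≤ 1 := by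
      rw [div_le_one (by positivity)]
      nlinarith
    have h2 : (1 + r) ^ 2 ≤ 4 := by nlinarith
    calc (1 + r) ^ 2 * ((r + ρ) * ((2 * ρ * r) / (2 * (1 + ρ * r)))) ≤ 4 * (2 * 1) := by
          gcongr
          linarith
      _ = 8 := by norm_num
  have c1 : -(24 * p) ≤ p * (-(2 * r) * ((r + ρ) * (1 + ρ * r)) + (1 + r) ^ 2 *
      (-(2 * r * ρ) / (2 * (r + ρ)) * (1 + ρ * r) +
        (r + ρ) * (-(2 * ρ * r) / (2 * (1 + ρ * r))))) := by
    have e : p * (-(2 * r) * ((r + ρ) * (1 + ρ * r)) + (1 + r) ^ 2 *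
      (-(2 * r * ρ) / (2 * (r + ρ)) * (1 + ρ * r) +
        (r + ρ) * (-(2 * ρ * r) / (2 * (1 + ρ * r))))) =
        -(p * (2 * r * ((r + ρ) * (1 + ρ * r)) +
          (1 + r) ^ 2 * ((2 * r * ρ) / (2 * (r + ρ)) * (1 + ρ * r)) +
          (1 + r) ^ 2 * ((r + ρ) * ((2 * ρ * r) / (2 * (1 + ρ * r)))))) := by
      rw [neg_div, neg_div]; ring
    rw [e]
    have := mul_le_mul_of_nonneg_left (add_le_add (add_le_add b1 b2) b3) hp.le
    linarith
  have c2 : q * (ρ ^ 3 * (1 - ρ)) / δ ≤ q * (r * (2 * r * ρ / (2 * δ) * (1 - ρ * r) +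
        δ * (2 * ρ * r / (2 * (1 - ρ * r))))) := by
    have h1 : 0 ≤ δ * (2 * ρ * r / (2 * (1 - ρ * r))) := by
      apply mul_nonneg hδ0.le
      apply div_nonneg (by positivity)
      linarith
    have h2 : ρ ^ 3 * (1 - ρ) / δ ≤ r * (2 * r * ρ / (2 * δ) * (1 - ρ * r)) := by
      have e : r * (2 * r * ρ / (2 * δ) * (1 - ρ * r)) = (r ^ 2 * ρ * (1 - ρ * r)) / δ := by
        field_simp
      rw [e]
      apply div_le_div_of_nonneg_right _ hδ0.le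
      have h3 : ρ ^ 2 ≤ r ^ 2 := by gcongr
      have h4 : 1 - ρ ≤ 1 - ρ * r := by nlinarith
      calc ρ ^ 3 * (1 - ρ) = ρ ^ 2 * ρ * (1 - ρ) := by ring
        _ ≤ r ^ 2 * ρ * (1 - ρ * r) := by
          apply mul_le_mul _ h4 (by linarith) (by positivity)
          gcongr
    rw [mul_div_assoc]
    apply mul_le_mul_of_nonneg_left _ hq.le
    have h5 : 0 ≤ r * (δ * (2 * ρ * r / (2 * (1 - ρ * r)))) := mul_nonneg hr0.le h1
    linarith
  have c3 : 24 * p + 5 ≤ q * (ρ ^ 3 * (1 - ρ)) / δ := by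
    rw [le_div_iff₀ hδ0]
    linarith
  have c4 : 0 ≤ -(-(2 * r * a) * (1 + a * r) ^ 2 + (r + a) ^ 2 * (-(2 * a * r))) := by
    have : 0 ≤ (2 * r * a) * (1 + a * r) ^ 2 + (r + a) ^ 2 * (2 * a * r) := by positivity
    linarith
  linarith

theorem Par.disc_failure (h : Par a ρ p q) :
    ∀ g gs : ℂ → ℝ, IsGreen (dom {z | ‖z‖ < 1} (N2 ρ p) (M2 ρ q)) (a : ℂ) g →
      IsGreen (dom {z | ‖z‖ < 1} (Ns2 a) (Ms2 a)) (a : ℂ) gs →
      ∃ lam : ℝ, 0 < lam ∧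
        ¬ circSymm (levelSet (dom {z | ‖z‖ < 1} (N2 ρ p) (M2 ρ q)) (a : ℂ) g lam) ⊆
          levelSet (dom {z | ‖z‖ < 1} (Ns2 a) (Ms2 a)) (a : ℂ) gs lam := by
  have hρ := h.ρ0
  have ha0 := h.a0
  have ha1 := h.a1
  have hp := h.p0
  have hq := h.q0
  have hρ1 : ρ < 1 := lt_trans h.ρa h.a1
  have hρa := h.ρa
  set δ : ℝ := min ((a - ρ) / 2) (q * ρ ^ 3 * (1 - ρ) / (24 * p + 5)) with hδ
  have hδ0 : 0 < δ := by
    rw [hδ]
    apply lt_min (by linarith)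
    have : 0 < 1 - ρ := by linarith
    positivity
  set r : ℝ := ρ + δ with hrdef
  have hr : ρ < r := by linarith
  have hra : r < a := by
    have : δ ≤ (a - ρ) / 2 := min_le_left _ _
    linarith
  have hr1 : r < 1 := by linarith
  have hr0 : 0 < r := by linarith
  have hδ2 : (r - ρ) * (24 * p + 5) ≤ q * ρ ^ 3 * (1 - ρ) := by
    have h1 : δ ≤ q * ρ ^ 3 * (1 - ρ) / (24 * p + 5) := min_le_right _ _
    rw [le_div_iff₀ (by positivity)] at h1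
    rw [hrdef]
    linarith
  have hnr : ∀ θ : ℝ, ‖(r : ℂ) * Complex.exp ((θ : ℂ) * Complex.I)‖ < 1 := fun θ => by
    rw [norm_polar hr0]; exact hr1
  have hE : ∀ θ : ℝ, ‖1 + ((-a : ℝ) : ℂ) * ((r : ℂ) * Complex.exp ((θ : ℂ) * Complex.I))‖ ^ 2 =
      (1 + a * r) ^ 2 - 2 * a * r * (1 + Real.cos θ) := fun θ => by
    rw [norm_one_add_sq_polar]; ring
  have h1r : 0 < 1 - r := by linarith
  have h1a : 0 < 1 - a := by linarith
  refine failure h.data (datas2 ha0 ha1) hr0 hnr (G := G2 a ρ p q r) (w := w2 a r)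
    (β := 2 * 1 * (2 * r * a * ((1 - a) * (1 - r)) ^ 2)) (c₀ := 1)
    (c₁ := 2 * r * a * ((1 - a) * (1 - r)) ^ 2) (c₂ := 1) ?_ (G2_zero h hr hr1)
    (G2_deriv h hr hr1) (by positivity) (slope h hr hra hδ2) ?_ ?_ ?_ (by positivity) rfl
    ?_ ?_ ?_ one_pos ?_ ?_
  · unfold G2 w2; fun_prop
  · unfold w2; fun_prop
  · unfold w2; simp only [mul_zero, sub_zero]; positivity
  · rintro X ⟨hX0, hX2⟩
    unfold w2
    simp only [mul_zero, sub_zero]
    have k1 : 0 ≤ (r + a) ^ 2 - 2 * r * a * X := by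
      have : 2 * r * a * X ≤ 2 * r * a * 2 := mul_le_mul_of_nonneg_left hX2 (by positivity)
      nlinarith [sq_nonneg (r - a)]
    have k2 : 0 ≤ (1 + a * r) ^ 2 - 2 * a * r * X := by
      have : 2 * a * r * X ≤ 2 * a * r * 2 := mul_le_mul_of_nonneg_left hX2 (by positivity)
      nlinarith [sq_nonneg (1 - a * r)]
    apply mul_le_mul _ _ k2 (by positivity)
    · have : 0 ≤ 2 * r * a * X := by positivity
      linarith
    · have : 0 ≤ 2 * a * r * X := by positivity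
      linarith
  · intro θ hθ
    rw [h.dom_eq]
    exact ⟨hnr θ, circle_avoid hρ hr hθ⟩
  · intro θ
    rw [h.fac, norm_mul, norm_pow, norm_sub_sq_polar]
    unfold E2 w2
    rw [norm_pow, hE]; ring
  · intro θ
    have n1 : ‖1 - (r : ℂ) * Complex.exp ((θ : ℂ) * Complex.I)‖ ^ 2 =
        (1 + r) ^ 2 + (-(2 * r)) * (1 + Real.cos θ) := by
      rw [norm_sub_rev]
      have := norm_sub_sq_polar r 1 θ
      rw [Complex.ofReal_one] at this
      rw [this]; ring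
    have n2 : ‖(r : ℂ) * Complex.exp ((θ : ℂ) * Complex.I) - (ρ : ℂ)‖ =
        √((r + ρ) ^ 2 + (-(2 * r * ρ)) * (1 + Real.cos θ)) := by
      rw [norm_sub_polar]; congr 1; ring
    have n3 : ‖1 + ((-ρ : ℝ) : ℂ) * ((r : ℂ) * Complex.exp ((θ : ℂ) * Complex.I))‖ =
        √((1 + ρ * r) ^ 2 + (-(2 * ρ * r)) * (1 + Real.cos θ)) := by
      rw [← Real.sqrt_sq (norm_nonneg _), norm_one_add_sq_polar]; congr 1; ring
    have n4 : ‖1 + (ρ : ℂ) * ((r : ℂ) * Complex.exp ((θ : ℂ) * Complex.I))‖ =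
        √((1 - ρ * r) ^ 2 + (2 * ρ * r) * (1 + Real.cos θ)) := by
      rw [← Real.sqrt_sq (norm_nonneg _), norm_one_add_sq_polar]
    have n5 := norm_add_polar r ρ θ
    have n6 := norm_polar hr0 θ
    generalize (r : ℂ) * Complex.exp ((θ : ℂ) * Complex.I) = z at *
    unfold N2 M2 G2
    rw [norm_mul, norm_mul, norm_mul, norm_mul, norm_mul, norm_mul, norm_pow, n1, n2, n3, n4,
      n5, n6, Complex.norm_real, Complex.norm_real, Real.norm_eq_abs,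
      Real.norm_eq_abs, abs_of_pos hp, abs_of_pos hq]
    ring
  · intro θ
    rw [fac_s, pow_one, norm_mul, mul_pow, norm_sub_sq_polar]
    unfold Es2 w2
    rw [hE]; ring
  · intro θ
    have n1 : ‖1 - (r : ℂ) * Complex.exp ((θ : ℂ) * Complex.I)‖ ^ 2 =
        (1 + r) ^ 2 + (-(2 * r)) * (1 + Real.cos θ) := by
      rw [norm_sub_rev]
      have := norm_sub_sq_polar r 1 θ
      rw [Complex.ofReal_one] at this
      rw [this]; ring
    have n6 := norm_polar hr0 θ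
    generalize (r : ℂ) * Complex.exp ((θ : ℂ) * Complex.I) = z at *
    unfold Ns2 Ms2 w2
    rw [norm_mul, norm_mul, norm_pow, n1, n6, Complex.norm_real, Complex.norm_real,
      Real.norm_eq_abs, Real.norm_eq_abs, abs_of_pos ha0, abs_of_nonneg (sq_nonneg _)]
    ring

lemma symm2 {s : ℝ} (hs : 0 < s) :
    circSymm {z : ℂ | ‖z‖ < 1 ∧ ¬ (z.im = 0 ∧ (z.re ≤ -s ∨ (0 ≤ z.re ∧ z.re ≤ s)))} =
      {z | ‖z‖ < 1 ∧ ¬ (z.im = 0 ∧ z.re ≤ 0)} := by
  rw [symm_eq (I := Ioo (0 : ℝ) 1)]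
  · have := slit_desc
    ext z
    have h1 : z ∈ Complex.slitPlane ↔ ¬ (z.im = 0 ∧ z.re ≤ 0) := by rw [this]; rfl
    simp only [mem_Ioo, norm_pos_iff, mem_ofPred_eq, ← h1]
    constructor
    · rintro ⟨⟨_, h2⟩, h3⟩; exact ⟨h2, h3⟩
    · rintro ⟨h2, h3⟩; exact ⟨⟨Complex.slitPlane_ne_zero h3, h2⟩, h3⟩
  · rintro z ⟨hz1, _⟩ hz
    exact ⟨norm_pos_iff.2 hz, hz1⟩
  · simp [hs.le]
  · intro z hz hz1
    simp only [mem_ofPred_eq, hz, false_and, not_false_eq_true, and_true]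
    exact hz1.2
  · intro r hr hr0
    rcases le_total r s with h | h
    · left; simp [hr0.le, h]
    · right; simp [h]

lemma conn2 {s : ℝ} (hs : 0 < s) (hs1 : s < 1) :
    IsConnected {z : ℂ | ‖z‖ < 1 ∧ ¬ (z.im = 0 ∧ (z.re ≤ -s ∨ (0 ≤ z.re ∧ z.re ≤ s)))} := by
  have hball : {z : ℂ | ‖z‖ < 1} = ball 0 1 := by
    ext z; simp
  have := conn_aux (s := s) {z : ℂ | ‖z‖ < 1} (by rw [hball]; exact convex_ball _ _)
    (x := (s + 1) / 2) (y := 1 / 2) (by linarith) ?_ ?_ (by norm_num) hs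
  · simpa using this
  · simp only [mem_ofPred_eq]
    rw [Complex.norm_real, Real.norm_eq_abs, abs_of_pos (by linarith)]
    linarith
  · simp only [mem_ofPred_eq]
    have h1 : ‖(⟨-s / 2, 1 / 2⟩ : ℂ)‖ ^ 2 < 1 := by
      rw [← Complex.normSq_eq_norm_sq, Complex.normSq_apply]
      simp only
      nlinarith
    nlinarith [norm_nonneg (⟨-s / 2, 1 / 2⟩ : ℂ)]

end Pool.Agent.H4.GS
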